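import Pool.Agent.Lib.MP_88d9d7_lc.Game

/-!
Analytic predicates, tree representations, a recursion theorem for closed sets and Borel comparison
of ranks.
-/

set_option linter.unusedSectionVars false

namespace Pool.Agent.Lib.MP_88d9d7_lc

open MeasureTheory Filter

instance polishPi {ι κ : Type} [Countable ι] [TopologicalSpace κ] [PolishSpace κ] :
    PolishSpace (ι → κ) :=
  @instPolishSpaceOfSeparableSpaceOfIsCompletelyMetrizableSpace _ _ inferInstance inferInstance

instance polishProd {α β : Type} [TopologicalSpace α] [PolishSpace α] [TopologicalSpace β]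
    [PolishSpace β] : PolishSpace (α × β) :=
  @instPolishSpaceOfSeparableSpaceOfIsCompletelyMetrizableSpace _ _ inferInstance inferInstance

section An

variable {α β : Type} [TopologicalSpace α] [PolishSpace α] [MeasurableSpace α] [BorelSpace α]
  [TopologicalSpace β] [PolishSpace β] [MeasurableSpace β] [BorelSpace β]

/-- Analytic predicates. -/
def An {α : Type} [TopologicalSpace α] (p : α → Prop) : Prop := AnalyticSet {a | p a}

theorem An.of_meas {p : α → Prop} (h : Measurable p) : An p :=
  (measurableSet_setOfPred.mpr h).analyticSet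

theorem An.exc {ι : Type} [Countable ι] {p : ι → α → Prop} (h : ∀ i, An (p i)) :
    An fun a => ∃ i, p i a := by
  have := AnalyticSet.iUnion h
  rwa [← Set.ofPred_exists] at this

theorem An.allc {ι : Type} [Countable ι] {p : ι → α → Prop} (h : ∀ i, An (p i)) :
    An fun a => ∀ i, p i a := by
  cases isEmpty_or_nonempty ι with
  | inl _ => exact An.of_meas (by simp)
  | inr _ =>
    have := AnalyticSet.iInter h
    rwa [← Set.ofPred_forall] at this

theorem An.congr {p q : α → Prop} (h : An p) (e : ∀ a, p a ↔ q a) : An q :=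
  (funext fun a => propext (e a) : p = q) ▸ h

theorem An.and {p q : α → Prop} (hp : An p) (hq : An q) : An fun a => p a ∧ q a :=
  (An.allc (p := fun (b : Bool) a => if b then p a else q a)
    (by rintro (_ | _) <;> simpa)).congr fun a => by simp [and_comm]

theorem An.or {p q : α → Prop} (hp : An p) (hq : An q) : An fun a => p a ∨ q a :=
  (An.exc (p := fun (b : Bool) a => if b then p a else q a)
    (by rintro (_ | _) <;> simpa)).congr fun a => by simp [or_comm]

theorem An.imp {p q : α → Prop} (hp : Measurable p) (hq : An q) : An fun a => p a → q a :=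
  ((An.of_meas hp.not).or hq).congr fun _ => imp_iff_not_or.symm

theorem An.ex {p : α → β → Prop} (h : An fun x : α × β => p x.1 x.2) :
    An fun a => ∃ b, p a b := by
  have := AnalyticSet.image_of_continuous h continuous_fst
  refine (congrArg AnalyticSet ?_).mp this
  ext a
  simp

theorem An.comp {p : β → Prop} (h : An p) {f : α → β} (hf : Measurable f) :
    An fun a => p (f a) := by
  have h1 : An fun x : α × β => f x.1 = x.2 ∧ p x.2 :=
    (An.of_meas (measurableSet_setOfPred.mp
      (measurableSet_eq_fun (hf.comp measurable_fst) measurable_snd))).and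
      (AnalyticSet.preimage h continuous_snd)
  exact (An.ex (p := fun a b => f a = b ∧ p b) h1).congr fun a => by simp

theorem An.meas {p : α → Prop} (h : An p) (h' : An fun a => ¬ p a) : Measurable p :=
  measurableSet_setOfPred.mp (AnalyticSet.measurableSet_of_compl h h')

end An

/-- The first `n` values of `w`, the last one first. -/
def node (w : ℕ → ℕ) : ℕ → List ℕ
  | 0 => []
  | n + 1 => w n :: node w n

theorem node_length (w : ℕ → ℕ) (n : ℕ) : (node w n).length = n := by
  induction n with
  | zero => rfl
  | succ n ih => simp [node, ih]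

theorem node_eq_iff {w w' : ℕ → ℕ} {n : ℕ} : node w n = node w' n ↔ ∀ i < n, w i = w' i := by
  induction n with
  | zero => simp [node]
  | succ n ih => rw [node, node, List.cons.injEq, ih, Nat.forall_lt_succ_right, and_comm]

/-- `w` is a branch of `T`. -/
def Br (T : List ℕ → Prop) (w : ℕ → ℕ) : Prop := ∀ n, T (node w n)

theorem tendsto_of_agree {κ ι : Type} [TopologicalSpace κ] {f : ℕ → ι → κ} {g : ι → κ}
    (h : ∀ i, ∃ N, ∀ n, N ≤ n → f n i = g i) : Tendsto f atTop (nhds g) :=
  tendsto_pi_nhds.mpr fun i => by
    obtain ⟨N, hN⟩ := h i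
    exact tendsto_const_nhds.congr' (eventually_atTop.mpr ⟨N, fun n hn => (hN n hn).symm⟩)

theorem isOpen_agree {κ : Type} [TopologicalSpace κ] [DiscreteTopology κ] (g : ℕ → κ) (n : ℕ) :
    IsOpen {f : ℕ → κ | ∀ i < n, f i = g i} := by
  have := (Set.finite_lt_nat n).isOpen_biInter fun i _ =>
    (isOpen_discrete {g i}).preimage (continuous_apply (A := fun _ : ℕ => κ) i)
  refine (congrArg IsOpen ?_).mp this
  ext f
  simp

theorem continuous_of_agree {κ β : Type} [TopologicalSpace κ] [DiscreteTopology κ]
    [TopologicalSpace β] {F : (ℕ → κ) → β} (n : ℕ)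
    (h : ∀ f g, (∀ i < n, f i = g i) → F f = F g) : Continuous F :=
  continuous_iff_continuousAt.mpr fun g => continuousAt_const.congr
    (eventually_of_mem ((isOpen_agree g n).mem_nhds fun _ _ => rfl) fun f hf => (h f g hf).symm)

/-- Tree representation of an analytic set. -/
theorem exists_tree {α κ : Type} [TopologicalSpace α] [TopologicalSpace κ] [DiscreteTopology κ]
    {ι : α → ℕ → κ} (hι : Continuous ι) (hi : Function.Injective ι) {p : α → Prop} (hp : An p) :
    ∃ V : α → List ℕ → Bool, Continuous V ∧ (∀ a k u, V a (k :: u) → V a u) ∧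
      ∀ a, p a ↔ ∃ w, Br (V a ·) w := by
  classical
  rw [An, AnalyticSet] at hp
  rcases hp with hp | ⟨g, hg, hp⟩
  · refine ⟨fun _ _ => false, continuous_const, by simp, fun a => ?_⟩
    simpa [Br] using Set.eq_empty_iff_forall_notMem.mp hp a
  refine ⟨fun a u => decide (∃ w, node w u.length = u ∧ ∀ i < u.length, ι (g w) i = ι a i),
    continuous_pi fun u => (continuous_of_agree (F := fun s => decide
      (∃ w, node w u.length = u ∧ ∀ i < u.length, ι (g w) i = s i)) u.length
      fun s t h => ?_).comp hι, fun a k u h => ?_, fun a => ⟨fun h => ?_, fun ⟨w, hw⟩ => ?_⟩⟩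
  · exact decide_eq_decide.mpr (exists_congr fun w => and_congr_right fun _ =>
      forall₂_congr fun i hi => by rw [h i hi])
  · obtain ⟨w, h1, h2⟩ := of_decide_eq_true h
    exact decide_eq_true ⟨w, (List.cons.inj h1).2, fun i hi => h2 i (by simp; omega)⟩
  · obtain ⟨w, rfl⟩ : a ∈ Set.range g := hp ▸ h
    exact ⟨w, fun n => decide_eq_true ⟨w, by rw [node_length], fun _ _ => rfl⟩⟩
  · have := fun n => of_decide_eq_true (hw n)
    simp only [node_length] at this
    choose v h1 h2 using this
    have e1 : Tendsto (fun n => ι (g (v n))) atTop (nhds (ι (g w))) :=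
      ((hι.comp hg).tendsto w).comp
        (tendsto_of_agree fun i => ⟨i + 1, fun n hn => node_eq_iff.mp (h1 n) i hn⟩)
    have e2 : Tendsto (fun n => ι (g (v n))) atTop (nhds (ι a)) :=
      tendsto_of_agree fun i => ⟨i + 1, fun n hn => h2 n i hn⟩
    have : a ∈ Set.range g := ⟨w, hi (tendsto_nhds_unique e1 e2)⟩
    rwa [hp] at this

/-- The recursion theorem for closed sets. -/
theorem exists_self {κ : Type} [TopologicalSpace κ] [DiscreteTopology κ]
    {F : Set ((ℕ → κ) × (List ℕ → Bool) × (ℕ → ℕ))} (hF : IsClosed F) :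
    ∃ Θ : (ℕ → κ) → List ℕ → Bool, Continuous Θ ∧ ∀ w z, Br (Θ w ·) z ↔ (w, Θ w, z) ∈ F := by
  classical
  obtain ⟨Θ, hΘ⟩ := exists_fixed (α := (ℕ → κ) → Bool)
    (InvImage.wf List.length (wellFounded_lt (α := ℕ)))
    (fun Θ t w => decide (∃ x ∈ F, (∀ i < t.length, x.1 i = w i) ∧
      (∀ s : List ℕ, s.length < t.length → Encodable.encode s < t.length → x.2.1 s = Θ s w) ∧
        node x.2.2 t.length = t)) fun f g t h => funext fun w =>
    decide_eq_decide.mpr (exists_congr fun x => and_congr_right fun _ => and_congr_right fun _ =>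
      and_congr_left fun _ => forall₂_congr fun s hs => by rw [h s hs])
  have loc : ∀ n (t : List ℕ), t.length = n → ∀ w w', (∀ i < n, w i = w' i) → Θ t w = Θ t w' := by
    intro n
    induction n using Nat.strong_induction_on with
    | _ n ih =>
      rintro t rfl w w' h
      rw [hΘ t]
      refine decide_eq_decide.mpr (exists_congr fun x => and_congr_right fun _ => and_congr
        (forall₂_congr fun i hi => by rw [h i hi]) (and_congr_left fun _ =>
          forall₂_congr fun s hs => ?_))
      rw [ih _ hs s rfl w w' fun i hi => h i (by omega)]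
  refine ⟨fun w t => Θ t w, continuous_pi fun t => continuous_of_agree _ (loc _ t rfl),
    fun w z => ⟨fun h => ?_, fun h n => ?_⟩⟩
  · have := fun n => of_decide_eq_true ((congrFun (hΘ (node z n)) w).symm.trans (h n))
    simp only [node_length] at this
    choose x h1 h2 h3 h4 using this
    refine hF.mem_of_tendsto (f := x) (b := atTop) ?_ (Eventually.of_forall h1)
    exact (tendsto_of_agree fun i => ⟨i + 1, fun n hn => h2 n i hn⟩).prodMk_nhds
      ((tendsto_of_agree fun s => ⟨s.length + Encodable.encode s + 1, fun n hn =>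
        h3 n s (by omega) (by omega)⟩).prodMk_nhds
      (tendsto_of_agree fun i => ⟨i + 1, fun n hn => node_eq_iff.mp (h4 n) i hn⟩))
  · exact (congrFun (hΘ (node z n)) w).trans (decide_eq_true
      ⟨_, h, fun _ _ => rfl, fun _ _ _ => rfl, by rw [node_length]⟩)

/-- The monotone map on finite sequences determined by `h`. -/
def emb (h : List ℕ → ℕ) : List ℕ → List ℕ
  | [] => []
  | k :: u => h (k :: u) :: emb h u

theorem Br.emb {U V : List ℕ → Prop} {h : List ℕ → ℕ} (H : ∀ u, U u → V (emb h u)) {w : ℕ → ℕ}
    (hw : Br U w) : Br V fun n => h (node w (n + 1)) := by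
  intro n
  have : node (fun n => h (node w (n + 1))) n = MP_88d9d7_lc.emb h (node w n) := by
    induction n with
    | zero => rfl
    | succ n ih => rw [node, ih]; rfl
  rw [this]
  exact H _ (hw n)

theorem isOpen_emb (u v : List ℕ) : IsOpen {h : List ℕ → ℕ | emb h u = v} := by
  induction u generalizing v with
  | nil => exact isOpen_const (p := [] = v)
  | cons k u ih =>
    cases v with
    | nil => simp [emb]
    | cons m v =>
      simp only [emb, List.cons.injEq]
      exact ((isOpen_discrete {m}).preimage (continuous_apply (k :: u))).inter (ih v)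

/-- The part of `U` below `u` maps monotonically into the part of `V` below `v`. -/
inductive Emb (U V : List ℕ → Prop) : List ℕ → List ℕ → Prop
  | mk (u v : List ℕ) (f : ℕ → ℕ) : V v → (∀ k, U (k :: u) → Emb U V (k :: u) (f k :: v)) →
      Emb U V u v

theorem emb_iff {U V : List ℕ → Prop} {u v : List ℕ} :
    Emb U V u v ↔ V v ∧ ∀ k, U (k :: u) → ∃ m, Emb U V (k :: u) (m :: v) := by
  refine ⟨fun h => ?_, fun ⟨h1, h2⟩ => ?_⟩
  · cases h with
    | mk _ _ f h1 h2 => exact ⟨h1, fun k hk => ⟨_, h2 k hk⟩⟩
  · choose! f hf using h2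
    exact .mk u v f h1 hf

theorem acc_of_no_branch {U : List ℕ → Prop} (hU : ∀ k u, U (k :: u) → U u) (h : ¬ ∃ w, Br U w)
    (u : List ℕ) (hu : U u) : Acc (fun s t => U s ∧ ∃ k, s = k :: t) u := by
  induction u with
  | cons k u ih => exact (ih (hU k u hu)).inv ⟨hu, k, rfl⟩
  | nil =>
    by_contra hcon
    have : ∀ t, ∃ k, ¬ Acc (fun s t => U s ∧ ∃ k, s = k :: t) t →
        U (k :: t) ∧ ¬ Acc (fun s t => U s ∧ ∃ k, s = k :: t) (k :: t) := fun t => by
      by_contra hc
      push Not at hc
      exact (hc 0).1 ⟨t, fun s ⟨h1, k, h2⟩ => h2 ▸ (hc k).2 (h2 ▸ h1)⟩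
    choose f hf using this
    let t : ℕ → List ℕ := fun n => Nat.rec [] (fun _ s => f s :: s) n
    have h1 : ∀ n, node (fun n => f (t n)) n = t n := fun n => by
      induction n with
      | zero => rfl
      | succ n ih => rw [node, ih]
    have h2 : ∀ n, U (t n) ∧ ¬ Acc (fun s t => U s ∧ ∃ k, s = k :: t) (t n) := fun n => by
      induction n with
      | zero => exact ⟨hu, hcon⟩
      | succ n ih => exact hf _ ih.2
    exact h ⟨_, fun n => h1 n ▸ (h2 n).1⟩

/-- A well-founded tree embeds in a Borel way into the trees of a Borel family, except into some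
well-founded ones. -/
theorem exists_emb {α : Type} [MeasurableSpace α] {U : List ℕ → Prop}
    (hU : ∀ k u, U (k :: u) → U u) (h : ¬ ∃ w, Br U w) {V : α → List ℕ → Prop}
    (hV : ∀ v, Measurable fun a => V a v) :
    ∃ (Γ : α → Prop) (e : α → List ℕ → ℕ), Measurable Γ ∧ Measurable e ∧
      (∀ a, (∃ w, Br (V a) w) → Γ a) ∧ ∀ a, Γ a → ∀ u, U u → V a (emb (e a) u) := by
  classical
  have m1 : ∀ u, U u → ∀ v, Measurable fun a => Emb U (V a) u v := fun u hu => by
    have := acc_of_no_branch hU h u hu
    clear hu
    induction this with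
    | intro u _ ih =>
      intro v
      simp only [emb_iff (u := u)]
      refine (hV v).and (.forall fun k => ?_)
      by_cases hk : U (k :: u)
      · simp only [hk, true_imp_iff]
        exact .exists fun m => ih _ ⟨hk, k, rfl⟩ _
      · simp [hk]
  have m2 : ∀ a w, Br (V a) w → ∀ u, U u → Emb U (V a) u (node w u.length) := fun a w hw u hu => by
    have := acc_of_no_branch hU h u hu
    clear hu
    induction this with
    | intro u _ ih => exact emb_iff.mpr ⟨hw _, fun k hk => ⟨_, ih _ ⟨hk, k, rfl⟩⟩⟩
  have : ∀ u v, ∃ s : α → ℕ, Measurable s ∧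
      ∀ a, U u → (∃ m, Emb U (V a) u (m :: v)) → Emb U (V a) u (s a :: v) := fun u v => by
    by_cases hu : U u
    · have hex : ∀ a, ∃ m, (∃ m, Emb U (V a) u (m :: v)) → Emb U (V a) u (m :: v) := fun a => by
        by_cases h' : ∃ m, Emb U (V a) u (m :: v)
        · exact h'.imp fun _ h _ => h
        · exact ⟨0, fun h => absurd h h'⟩
      exact ⟨fun a => Nat.find (hex a), measurable_find hex fun m => measurableSet_setOfPred.mpr
        (.imp (.exists fun m => m1 u hu _) (m1 u hu _)), fun a _ => Nat.find_spec (hex a)⟩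
    · exact ⟨fun _ => 0, measurable_const, fun _ h => absurd h hu⟩
  choose s hs hs' using this
  let E : α → List ℕ → List ℕ := fun a u =>
    List.rec [] (fun k u r => s (k :: u) r a :: r) u
  have hE : ∀ a k u, E a (k :: u) = s (k :: u) (E a u) a :: E a u := fun _ _ _ => rfl
  have m3 : ∀ u v, Measurable fun a => E a u = v := fun u => by
    induction u with
    | nil => exact fun v => measurable_const (a := [] = v)
    | cons k u ih =>
      intro v
      have : (fun a => E a (k :: u) = v) =
          fun a => ∃ r m, E a u = r ∧ s (k :: u) r a = m ∧ m :: r = v := by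
        funext a; simp [hE]
      rw [this]
      exact .exists fun r => .exists fun m => (ih r).and
        ((meas2 (hs _ r) (hs u r) fun x _ => x = m).and measurable_const)
  have e1 : ∀ a u, emb (fun u => (E a u).headD 0) u = E a u := fun a u => by
    induction u with
    | nil => rfl
    | cons k u ih => rw [emb, ih]; rfl
  refine ⟨fun a => U [] → Emb U (V a) [] [], fun a u => (E a u).headD 0, ?_,
    measurable_pi_lambda _ fun u => measurable_to_countable' fun m => ?_,
    fun a ⟨w, hw⟩ hu => m2 a w hw [] hu, fun a ha u hu => ?_⟩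
  · by_cases hu : U []
    · exact .imp measurable_const (m1 [] hu [])
    · simp [hu]
  · have : (fun a => (E a u).headD 0) ⁻¹' {m} = {a | ∃ v, E a u = v ∧ v.headD 0 = m} := by
      ext a; simp
    rw [this]
    exact measurableSet_setOfPred.mpr (.exists fun v => (m3 u v).and measurable_const)
  · rw [e1]
    refine (emb_iff (U := U) (u := u)).mp ?_ |>.1
    induction u with
    | nil => exact ha hu
    | cons k u ih => exact hs' _ _ a hu ((emb_iff.mp (ih (hU k u hu))).2 k hu)

end Pool.Agent.Lib.MP_88d9d7_lc
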