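import Pool.Agent.Lib.MP_88d9d7_lc.Defs
import Pool.Agent.Lib.MP_88d9d7_lc.Ana

/-!
The set of Borel codes is coanalytic, evaluation of codes is analytic and coanalytic on it, and
sections of a Borel set have codes depending on the parameter in a Borel way.
-/

namespace Pool.Agent.Lib.MP_88d9d7_lc

open Set

theorem measurableSet_basic (n : ℕ) : MeasurableSet (basic n) :=
  measurableSet_setOfPred.mpr <| .forall fun i => .imp measurable_const <| .and
    (measurableSet_setOfPred.mp (measurableSet_eq_fun (by fun_prop) measurable_const))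
    (measurableSet_setOfPred.mp (measurableSet_eq_fun (by fun_prop) measurable_const))

theorem Codes.measurableSet {c : ℕ → ℕ} {S : Set (X × X)} (h : Codes c S) : MeasurableSet S := by
  induction h with
  | basic c n _ => exact measurableSet_basic n
  | compl c S _ _ ih => exact ih.compl
  | union c S _ _ ih => exact .iUnion ih

/-- The `i`-th immediate subcode. -/
def child (c : ℕ → ℕ) (i : ℕ) : ℕ → ℕ :=
  if c 0 = 0 then fun k => c (k + 1) else if c 0 = 1 then fun k => c (Nat.pair i k + 1) else c

/-- The subcode at an address. -/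
def sub (c : ℕ → ℕ) : List ℕ → ℕ → ℕ
  | [] => c
  | i :: a => child (sub c a) i

theorem sub_append (c : ℕ → ℕ) (i : ℕ) (a : List ℕ) : sub c (a ++ [i]) = sub (child c i) a := by
  induction a with
  | nil => rfl
  | cons j a ih => rw [List.cons_append, sub, sub, ih]

theorem measurable_child (i : ℕ) : Measurable fun c => child c i :=
  .ite (measurableSet_eq_fun (by fun_prop) measurable_const) (by fun_prop)
    (.ite (measurableSet_eq_fun (by fun_prop) measurable_const) (by fun_prop) measurable_id)

theorem measurable_sub (a : List ℕ) : Measurable fun c => sub c a := by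
  induction a with
  | nil => exact measurable_id
  | cons i a ih => exact (measurable_child i).comp ih

/-- Being a code. -/
def IsCode (c : ℕ → ℕ) : Prop := ∃ S, Codes c S

theorem IsCode.child {c : ℕ → ℕ} (h : IsCode c) (i : ℕ) : IsCode (child c i) := by
  obtain ⟨S, h⟩ := h
  cases h with
  | basic _ n h => exact ⟨_, .basic _ n (by simp [MP_88d9d7_lc.child, h])⟩
  | compl _ S h h' => exact ⟨S, by simpa [MP_88d9d7_lc.child, h] using h'⟩
  | union _ S h h' => exact ⟨S i, by simpa [MP_88d9d7_lc.child, h] using h' i⟩

theorem isCode_of_child {c : ℕ → ℕ} (h : ∀ i, IsCode (child c i)) : IsCode c := by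
  rcases hc : c 0 with _ | _ | n
  · obtain ⟨S, hS⟩ := h 0
    exact ⟨_, .compl c S hc (by simpa [child, hc] using hS)⟩
  · choose S hS using h
    exact ⟨_, .union c S hc fun i => by simpa [child, hc] using hS i⟩
  · exact ⟨_, .basic c n hc⟩

theorem node_shift (w : ℕ → ℕ) (n : ℕ) : node w (n + 1) = node (fun k => w (k + 1)) n ++ [w 0] := by
  induction n with
  | zero => rfl
  | succ n ih => rw [node, ih]; rfl

theorem not_isCode_iff {c : ℕ → ℕ} : ¬ IsCode c ↔ ∃ w, Br (fun a => sub c a 0 < 2) w := by
  constructor
  · intro h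
    have : ∀ c, ∃ i, ¬ IsCode c → ¬ IsCode (child c i) := fun c => by
      by_contra hcon
      push Not at hcon
      exact (hcon 0).1 (isCode_of_child fun i => (hcon i).2)
    choose f hf using this
    let t : ℕ → List ℕ := fun n => Nat.rec [] (fun _ s => f (sub c s) :: s) n
    have h1 : ∀ n, node (fun n => f (sub c (t n))) n = t n := fun n => by
      induction n with
      | zero => rfl
      | succ n ih => rw [node, ih]
    have h2 : ∀ n, ¬ IsCode (sub c (t n)) := fun n => by
      induction n with
      | zero => exact h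
      | succ n ih => exact hf _ ih
    refine ⟨fun n => f (sub c (t n)), fun n => ?_⟩
    rw [h1 n]
    by_contra hcon
    exact h2 n ⟨_, .basic _ (sub c (t n) 0 - 2) (by omega)⟩
  · rintro ⟨w, hw⟩ ⟨S, h⟩
    have key : ∀ {c w}, Br (fun a => sub c a 0 < 2) w →
        Br (fun a => sub (child c (w 0)) a 0 < 2) fun k => w (k + 1) := fun h n => by
      have := h (n + 1)
      rwa [node_shift, sub_append] at this
    induction h generalizing w with
    | basic c n h => have : c 0 < 2 := hw 0; omega
    | compl c S h _ ih => exact ih _ (by simpa [child, h] using key hw)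
    | union c S h _ ih => exact ih (w 0) _ (by simpa [child, h] using key hw)

theorem an_not_isCode : An fun c => ¬ IsCode c :=
  (An.ex (p := fun c w => ∀ n, ∃ a, node w n = a ∧ sub c a 0 < 2) (An.of_meas <| .forall fun n =>
    .exists fun a => .and (by
      by_cases h : ∃ w, node w n = a
      · obtain ⟨w, rfl⟩ := h
        simp only [node_eq_iff]
        exact .forall fun i => .imp measurable_const
          (meas2 (by fun_prop) measurable_const (· = ·))
      · push Not at h
        simp [h])
      (meas2 ((measurable_pi_apply 0).comp ((measurable_sub a).comp measurable_fst))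
        measurable_const (· < ·)))).congr fun c => by simp [not_isCode_iff, Br]

/-- `v` records the truth values of all subcodes at `q`. -/
def Eval (c : ℕ → ℕ) (q : X × X) (v : List ℕ → Bool) : Prop := ∀ a,
  (∀ n, sub c a 0 = n + 2 → (v a = true ↔ q ∈ basic n)) ∧
  (sub c a 0 = 0 → (v a = true ↔ ¬ v (0 :: a) = true)) ∧
  (sub c a 0 = 1 → (v a = true ↔ ∃ i, v (i :: a) = true))

theorem Eval.child {c : ℕ → ℕ} {q : X × X} {v : List ℕ → Bool} (h : Eval c q v) (i : ℕ) :
    Eval (child c i) q fun a => v (a ++ [i]) := fun a => by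
  have := h (a ++ [i])
  rwa [sub_append] at this

theorem Eval.iff {c : ℕ → ℕ} {S : Set (X × X)} (h : Codes c S) {q : X × X} {v : List ℕ → Bool}
    (hv : Eval c q v) : v [] = true ↔ q ∈ S := by
  induction h generalizing v with
  | basic c n h => exact (hv []).1 n h
  | compl c S h _ ih =>
    rw [(hv []).2.1 h, mem_compl_iff, ← ih (by simpa [MP_88d9d7_lc.child, h] using hv.child 0)]
    rfl
  | union c S h _ ih =>
    rw [(hv []).2.2 h, mem_iUnion]
    exact exists_congr fun i => ih i (by simpa [MP_88d9d7_lc.child, h] using hv.child i)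

theorem Codes.unique {c : ℕ → ℕ} {S S' : Set (X × X)} (h : Codes c S) (h' : Codes c S') :
    S = S' := by
  induction h generalizing S' with
  | basic c n h => cases h' with
    | basic _ m h' => rw [show n = m by omega]
    | compl _ _ h' => omega
    | union _ _ h' => omega
  | compl c S h _ ih => cases h' with
    | basic _ m h' => omega
    | compl _ _ _ h' => rw [ih h']
    | union _ _ h' => omega
  | union c S h _ ih => cases h' with
    | basic _ m h' => omega
    | compl _ _ h' => omega
    | union _ _ _ h' => exact iUnion_congr fun i => ih i (h' i)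

theorem exists_eval {c : ℕ → ℕ} (h : IsCode c) (q : X × X) : ∃ v, Eval c q v := by
  classical
  have : ∀ a, IsCode (sub c a) := fun a => by
    induction a with
    | nil => exact h
    | cons i a ih => exact ih.child i
  choose S hS using this
  refine ⟨fun a => decide (q ∈ S a), fun a => ⟨fun n hn => ?_, fun hn => ?_, fun hn => ?_⟩⟩ <;>
    dsimp only
  · rw [(hS a).unique (.basic _ n hn), decide_eq_true_iff]
  · rw [(hS a).unique (.compl _ (S (0 :: a)) hn (by simpa [sub, child, hn] using hS (0 :: a)))]
    simp
  · rw [(hS a).unique (.union _ (fun i => S (i :: a)) hn fun i => by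
      simpa [sub, child, hn] using hS (i :: a))]
    simp

/-- The analytic approximations to membership and non-membership. -/
def Val (b : Bool) (c : ℕ → ℕ) (q : X × X) : Prop := ∃ v, Eval c q v ∧ v [] = b

theorem val_true {c : ℕ → ℕ} {S : Set (X × X)} (h : Codes c S) {q : X × X} :
    Val true c q ↔ q ∈ S :=
  ⟨fun ⟨_, h1, h2⟩ => (h1.iff h).mp h2, fun hq =>
    (exists_eval ⟨S, h⟩ q).imp fun _ hv => ⟨hv, (hv.iff h).mpr hq⟩⟩

theorem val_false {c : ℕ → ℕ} {S : Set (X × X)} (h : Codes c S) {q : X × X} :
    Val false c q ↔ q ∉ S :=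
  ⟨fun ⟨_, h1, h2⟩ hq => by simpa [h2] using (h1.iff h).mpr hq, fun hq =>
    (exists_eval ⟨S, h⟩ q).imp fun _ hv => ⟨hv, by simpa using fun e => hq ((hv.iff h).mp e)⟩⟩

theorem an_val0 (b : Bool) : An fun x : (ℕ → ℕ) × X × X => Val b x.1 x.2 := by
  have hv : ∀ a b, Measurable fun x : ((ℕ → ℕ) × X × X) × (List ℕ → Bool) => x.2 a = b :=
    fun a b => measurableSet_setOfPred.mp (measurableSet_eq_fun (by fun_prop) measurable_const)
  have hs : ∀ a n, Measurable fun x : ((ℕ → ℕ) × X × X) × (List ℕ → Bool) => sub x.1.1 a 0 = n :=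
    fun a n => meas2 ((measurable_pi_apply 0).comp ((measurable_sub a).comp (by fun_prop)))
      measurable_const (· = ·)
  exact An.ex (p := fun x v => Eval x.1 x.2 v ∧ v [] = b) (An.of_meas <| .and (.forall fun a =>
    .and (.forall fun n => (hs a _).imp ((hv a _).iff
      ((measurableSet_basic n).mem.comp (by fun_prop))))
    (.and ((hs a _).imp ((hv a _).iff (hv _ _).not))
      ((hs a _).imp ((hv a _).iff (.exists fun i => hv _ _))))) (hv _ _))

theorem an_val {α : Type} [TopologicalSpace α] [PolishSpace α] [MeasurableSpace α] [BorelSpace α]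
    (b : Bool) {c : α → ℕ → ℕ} {x y : α → X} (hc : Measurable c) (hx : Measurable x)
    (hy : Measurable y) : An fun a => Val b (c a) (x a, y a) :=
  (an_val0 b).comp (hc.prodMk (hx.prodMk hy))

/-- Sets whose sections have codes depending measurably on the parameter. -/
def Coded {P : Type} [MeasurableSpace P] (S : Set (P × X × X)) : Prop :=
  ∃ f : P → ℕ → ℕ, Measurable f ∧ ∀ p, Codes (f p) {q | (p, q) ∈ S}

section Coded

variable {P : Type} [MeasurableSpace P]

theorem Coded.compl {S : Set (P × X × X)} (h : Coded S) : Coded Sᶜ := by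
  obtain ⟨f, h1, h2⟩ := h
  refine ⟨fun p k => Nat.casesOn k 0 (f p), measurable_pi_lambda _ fun k => ?_,
    fun p => .compl _ _ rfl (h2 p)⟩
  cases k with
  | zero => exact measurable_const
  | succ k => exact (measurable_pi_apply k).comp h1

theorem Coded.iUnion {S : ℕ → Set (P × X × X)} (h : ∀ i, Coded (S i)) : Coded (⋃ i, S i) := by
  choose f h1 h2 using h
  refine ⟨fun p k => Nat.casesOn k 1 fun k => f k.unpair.1 p k.unpair.2,
    measurable_pi_lambda _ fun k => ?_, fun p => ?_⟩
  · cases k with
    | zero => exact measurable_const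
    | succ k => exact (measurable_pi_apply _).comp (h1 _)
  · have := Codes.union (fun k => Nat.casesOn k 1 fun k => f k.unpair.1 p k.unpair.2)
      (fun i => {q | (p, q) ∈ S i}) rfl fun i => by simpa using h2 i p
    refine (congrArg (Codes _) ?_).mp this
    ext q
    simp

theorem coded_basic (n : ℕ) : Coded {x : P × X × X | x.2 ∈ basic n} :=
  ⟨fun _ _ => n + 2, measurable_const, fun _ => .basic _ n rfl⟩

theorem basic_zero : basic 0 = univ := by
  ext q
  simp [basic]

theorem coded_empty : Coded (∅ : Set (P × X × X)) := by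
  simpa [basic_zero] using (coded_basic (P := P) 0).compl

theorem coded_fst {A : Set P} (hA : MeasurableSet A) : Coded {x : P × X × X | x.1 ∈ A} := by
  classical
  obtain ⟨f, h1, h2⟩ := coded_empty (P := P)
  refine ⟨fun p => if p ∈ A then fun _ => 2 else f p, .ite hA measurable_const h1, fun p => ?_⟩
  by_cases hp : p ∈ A
  · simpa [hp, basic_zero] using Codes.basic (fun _ => 2) 0 rfl
  · simpa [hp] using h2 p

theorem exists_testBit (x : X) (k : ℕ) : ∃ a : ℕ, ∀ i < k, x i = a.testBit i :=
  ⟨Nat.ofBits fun i : Fin k => x i, fun i hi => by rw [Nat.testBit_ofBits_lt _ _ hi]⟩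

theorem coded_clopen (k : ℕ) (R : X × X → Prop)
    (hR : ∀ q q' : X × X, (∀ i < k, q.1 i = q'.1 i ∧ q.2 i = q'.2 i) → R q → R q') :
    Coded {x : P × X × X | R x.2} := by
  classical
  have := Coded.iUnion (P := P) (S := fun n => if ∀ q ∈ basic n, R q then
    {x | x.2 ∈ basic n} else ∅) fun n => by
      split_ifs
      · exact coded_basic n
      · exact coded_empty
  refine (congrArg Coded ?_).mp this
  ext ⟨p, q⟩
  simp only [mem_iUnion, mem_ofPred_eq]
  constructor
  · rintro ⟨n, hn⟩
    split_ifs at hn with h
    · exact h q hn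
    · exact hn.elim
  · intro h
    obtain ⟨a, ha⟩ := exists_testBit q.1 k
    obtain ⟨b, hb⟩ := exists_testBit q.2 k
    refine ⟨Nat.pair k (Nat.pair a b), ?_⟩
    rw [if_pos]
    · simpa [basic] using fun i hi => ⟨ha i hi, hb i hi⟩
    · intro q' hq'
      simp only [basic, Nat.unpair_pair, mem_ofPred_eq] at hq'
      exact hR q q' (fun i hi => by rw [ha i hi, hb i hi, (hq' i hi).1, (hq' i hi).2]; simp) h

theorem coded_of_measurableSet {S : Set (P × X × X)} (hS : MeasurableSet S) : Coded S := by
  let M : MeasurableSpace (P × X × X) :=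
    { MeasurableSet' := Coded
      measurableSet_empty := coded_empty
      measurableSet_compl := fun _ h => h.compl
      measurableSet_iUnion := fun _ h => Coded.iUnion h }
  have h0 : @Measurable _ _ M _ (fun x : P × X × X => x.1) := fun _ hA => coded_fst hA
  have h1 : @Measurable _ _ M _ (fun x : P × X × X => x.2.1) :=
    @measurable_pi_lambda _ _ _ M _ _ fun i => @measurable_to_bool _ M _
      (coded_clopen (i + 1) (fun q => q.1 i = true) fun q q' h h' => (h i (by omega)).1 ▸ h')
  have h2 : @Measurable _ _ M _ (fun x : P × X × X => x.2.2) :=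
    @measurable_pi_lambda _ _ _ M _ _ fun i => @measurable_to_bool _ M _
      (coded_clopen (i + 1) (fun q => q.2 i = true) fun q q' h h' => (h i (by omega)).2 ▸ h')
  exact (h0.prodMk (h1.prodMk h2)) hS

end Coded

theorem exists_code {S : Set (X × X)} (hS : MeasurableSet S) : ∃ c, Codes c S := by
  obtain ⟨f, -, h⟩ := coded_of_measurableSet (P := Unit) (measurable_snd hS)
  exact ⟨_, h ()⟩

end Pool.Agent.Lib.MP_88d9d7_lc
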