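import Mathlib

/-!
Borel graphs on the Cantor space, Borel codes and the pointclass of projections of coanalytic sets.
-/

namespace Pool.Agent.Lib.MP_88d9d7_lc

/-- The Cantor space. -/
abbrev X : Type := ℕ → Bool

/-- An enumeration of the basic clopen subsets of `X × X`: for `n = ⟨k, a, b⟩`, the pairs whose first
`k` bits are the first `k` binary digits of `a` and of `b`. -/
def basic (n : ℕ) : Set (X × X) :=
  {q | ∀ i < n.unpair.1, q.1 i = n.unpair.2.unpair.1.testBit i ∧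
    q.2 i = n.unpair.2.unpair.2.testBit i}

/-- Solovay's coding of Borel sets: `Codes c S` says that `c` is a Borel code for `S`. -/
inductive Codes : (ℕ → ℕ) → Set (X × X) → Prop
  | basic (c : ℕ → ℕ) (n : ℕ) : c 0 = n + 2 → Codes c (basic n)
  | compl (c : ℕ → ℕ) (S : Set (X × X)) : c 0 = 0 → Codes (fun k => c (k + 1)) S → Codes c Sᶜ
  | union (c : ℕ → ℕ) (S : ℕ → Set (X × X)) : c 0 = 1 →
      (∀ i, Codes (fun k => c (Nat.pair i k + 1)) (S i)) → Codes c (⋃ i, S i)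

/-- Symmetric and irreflexive. -/
def IsGraph (G : Set (X × X)) : Prop := (∀ x y, (x, y) ∈ G → (y, x) ∈ G) ∧ ∀ x, (x, x) ∉ G

/-- Every vertex has exactly `Δ` neighbours. -/
def Regular (Δ : ℕ) (G : Set (X × X)) : Prop := ∀ x, {y | (x, y) ∈ G}.encard = Δ

/-- There is no cycle `x 0, x 1, …, x (n - 1), x n = x 0` with `n ≥ 3` distinct vertices. -/
def Acyclic (G : Set (X × X)) : Prop :=
  ¬ ∃ (n : ℕ) (x : ℕ → X), 3 ≤ n ∧ Set.InjOn x (Set.Iio n) ∧ x n = x 0 ∧
    ∀ i < n, (x i, x (i + 1)) ∈ G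

/-- The connectedness relation is an increasing union of Borel equivalence relations with finite
classes. -/
def Hyperfinite (G : Set (X × X)) : Prop :=
  ∃ E : ℕ → Set (X × X),
    (∀ n, MeasurableSet (E n) ∧ Equivalence (fun x y => (x, y) ∈ E n) ∧ E n ⊆ E (n + 1) ∧
      ∀ x, {y | (x, y) ∈ E n}.Finite) ∧
    ∀ x y, Relation.ReflTransGen (fun a b => (a, b) ∈ G) x y ↔ ∃ n, (x, y) ∈ E n

/-- There is a Borel proper colouring with `Δ` colours. -/
def BorelColorable (Δ : ℕ) (G : Set (X × X)) : Prop :=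
  ∃ c : X → Fin Δ, Measurable c ∧ ∀ x y, (x, y) ∈ G → c x ≠ c y

/-- Codes of `Δ`-regular acyclic hyperfinite Borel graphs. -/
def classC (Δ : ℕ) : Set (ℕ → ℕ) :=
  {c | ∃ G, Codes c G ∧ IsGraph G ∧ Regular Δ G ∧ Acyclic G ∧ Hyperfinite G}

/-- Codes of those with Borel chromatic number at most `Δ`. -/
def classA (Δ : ℕ) : Set (ℕ → ℕ) :=
  {c | ∃ G, Codes c G ∧ IsGraph G ∧ Regular Δ G ∧ Acyclic G ∧ Hyperfinite G ∧ BorelColorable Δ G}

/-- Projections of coanalytic sets. -/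
def Sigma12 {Z : Type} [TopologicalSpace Z] (B : Set Z) : Prop :=
  ∃ P : Set (Z × (ℕ → ℕ)), MeasureTheory.AnalyticSet Pᶜ ∧ B = Prod.fst '' P

end Pool.Agent.Lib.MP_88d9d7_lc
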