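import Pool.Agent.Lib.MP_88d9d7_lc.Sys
import Pool.Agent.Lib.MP_88d9d7_lc.Ana

/-!
The relation `Dom z y`: the sequence of levels given by `z` eventually grows too slowly for `y`.
Its sections are `σ`-compact, so that having a branch `z` with `Dom z y` is a Borel condition.
-/

set_option linter.unusedSectionVars false

namespace Pool.Agent.Lib.MP_88d9d7_lc

variable {D : Type} [Fintype D] [LinearOrder D]

/-- The increasing sequence given by `z`. -/
def nu (z : ℕ → ℕ) (k : ℕ) : ℕ := ∑ i ∈ Finset.range k, (z i + 1)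

theorem nu_succ (z : ℕ → ℕ) (k : ℕ) : nu z (k + 1) = nu z k + (z k + 1) := Finset.sum_range_succ ..

theorem nu_mono (z : ℕ → ℕ) : Monotone (nu z) :=
  monotone_nat_of_le_succ fun k => by rw [nu_succ]; omega

theorem le_nu (z : ℕ → ℕ) (k : ℕ) : k ≤ nu z k := by
  induction k with
  | zero => exact Nat.zero_le _
  | succ k ih => rw [nu_succ]; omega

theorem nu_congr {z z' : ℕ → ℕ} {k : ℕ} (h : ∀ i < k, z i = z' i) : nu z k = nu z' k :=
  Finset.sum_congr rfl fun i hi => by rw [h i (Finset.mem_range.mp hi)]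

theorem measurable_nu : Measurable nu :=
  measurable_pi_lambda _ fun k => Finset.measurable_sum _ fun i _ => by fun_prop

/-- The levels given by `z` eventually do not separate at `y`. -/
def Dom (z : ℕ → ℕ) (y : List D → ℕ) : Prop :=
  ∃ l, ∀ k, l ≤ k → ¬ Good y (nu z k) (nu z (k + 1))

theorem Dom.sg {z : ℕ → ℕ} {y : List D → ℕ} (hy : y ∈ Y D) (h : Dom z y) (j : D) :
    Dom z (sg j y) := by
  obtain ⟨l, hl⟩ := h
  refine ⟨l + y [j] + 1, fun k hk hg => hl k (by omega) ?_⟩
  have := hg.step (j := j) (by rw [sg_single]; have := le_nu z k; omega)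
  rwa [sg_sg j hy] at this

theorem dom_sg {z : ℕ → ℕ} {y : List D → ℕ} (hy : y ∈ Y D) (j : D) : Dom z (sg j y) ↔ Dom z y :=
  ⟨fun h => by have := h.sg (sg_mem j hy) j; rwa [sg_sg j hy] at this, fun h => h.sg hy j⟩

theorem good_of_not_dom {z : ℕ → ℕ} {y : List D → ℕ} (h : ¬ Dom z y) :
    ∃ k, Good y (nu z k) (nu z (k + 1)) := by
  by_contra hcon
  exact h ⟨0, fun k _ hk => hcon ⟨k, hk⟩⟩

theorem exists_not_dom {y : List D → ℕ} (hy : y ∈ Y D) : ∃ z, ¬ Dom z y := by
  choose f hf using (sysY D).exists_good ⟨y, hy⟩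
  let n : ℕ → ℕ := fun k => Nat.rec 0 (fun _ m => m + (f m + 1)) k
  have h : ∀ k, nu (fun k => f (n k)) k = n k := fun k => by
    induction k with
    | zero => rfl
    | succ k ih => rw [nu_succ, ih]
  refine ⟨fun k => f (n k), fun ⟨l, hl⟩ => hl l le_rfl ?_⟩
  rw [nu_succ, h]
  exact hf _ _ (by omega)

theorem measurable_dom (z : ℕ → ℕ) : Measurable fun y : List D → ℕ => Dom z y :=
  .exists fun _ => .forall fun _ => .imp measurable_const (measurable_good _ _).not

theorem koenig {V : ℕ → (ℕ → ℕ) → Prop} (hm : ∀ m n z, m ≤ n → V n z → V m z)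
    (hc : ∀ m z z', (∀ i < m, z i = z' i) → V m z → V m z') {l : ℕ}
    (hb : ∀ k, l ≤ k → ∀ s : ℕ → ℕ, ∃ B, ∀ z, (∀ i < k, z i = s i) → V (k + 1) z → z k ≤ B)
    {s : ℕ → ℕ} (h : ∀ m, ∃ z, V m z ∧ ∀ i < l, z i = s i) : ∃ z, ∀ m, V m z := by
  have step : ∀ k (s : ℕ → ℕ), ∃ a, l ≤ k → (∀ m, ∃ z, V m z ∧ ∀ i < k, z i = s i) →
      ∀ m, ∃ z, V m z ∧ ∀ i < k + 1, z i = Function.update s k a i := fun k s => by
    by_contra hcon
    push Not at hcon
    obtain ⟨hk, hs, -⟩ := hcon 0
    choose m hm' using fun a => (hcon a).2.2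
    obtain ⟨B, hB⟩ := hb k hk s
    obtain ⟨z, h1, h2⟩ := hs ((Finset.range (B + 1)).sup m + (k + 1))
    have h3 := hB z h2 (hm _ _ z (by omega) h1)
    have h4 : m (z k) ≤ (Finset.range (B + 1)).sup m :=
      Finset.le_sup (Finset.mem_range.mpr (by omega))
    obtain ⟨i, h5, h6⟩ := hm' (z k) z (hm _ _ z (by omega) h1)
    rcases (Nat.lt_succ_iff.mp h5).eq_or_lt with rfl | h7
    · simp at h6
    · rw [Function.update_of_ne h7.ne] at h6
      exact h6 (h2 i h7)
  choose a ha using step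
  let t : ℕ → ℕ → ℕ := fun d => Nat.rec s (fun d r => Function.update r (l + d) (a (l + d) r)) d
  have h1 : ∀ d m, ∃ z, V m z ∧ ∀ i < l + d, z i = t d i := fun d => by
    induction d with
    | zero => exact h
    | succ d ih => exact ha _ _ (Nat.le_add_right l d) ih
  have h2 : ∀ d e, d ≤ e → ∀ i < l + d, t e i = t d i := fun d e hde i hi => by
    induction hde with
    | refl => rfl
    | @step e hde ih =>
      have : d ≤ e := hde
      exact (Function.update_of_ne (by omega) _ _).trans ih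
  refine ⟨fun i => t (i + 1) i, fun m => ?_⟩
  obtain ⟨z, h3, h4⟩ := h1 m m
  exact hc m z _ (fun i hi => (h4 i (by omega)).trans (h2 _ _ hi i (by omega))) h3

theorem measurable_exists_dom {α : Type} [MeasurableSpace α] {T : α → List ℕ → Prop}
    (hT : ∀ t, Measurable fun a => T a t) {y : α → List D → ℕ} (hy : Measurable y)
    (hY : ∀ a, y a ∈ Y D) : Measurable fun a => ∃ z, Br (T a) z ∧ Dom z (y a) := by
  let V : α → ℕ → ℕ → (ℕ → ℕ) → Prop := fun a l m z =>
    ∀ k < m, T a (node z k) ∧ (l ≤ k → ¬ Good (y a) (nu z k) (nu z (k + 1)))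
  have hc : ∀ a l m z z', (∀ i < m, z i = z' i) → V a l m z → V a l m z' :=
    fun a l m z z' h hV k hk => by
      rw [← node_eq_iff.mpr fun i hi => h i (by omega), ← nu_congr fun i hi => h i (by omega),
        ← nu_congr fun i hi => h i (by omega)]
      exact hV k hk
  have ex : ∀ (z : ℕ → ℕ) n, ∃ t : List ℕ, ∀ i < n, t.getD i 0 = z i := fun z n =>
    ⟨(List.range n).map z, fun i hi => by simp [List.getElem?_range hi]⟩
  have : (fun a => ∃ z, Br (T a) z ∧ Dom z (y a)) = fun a => ∃ (l : ℕ) (s : List ℕ), ∀ m,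
      ∃ t : List ℕ, V a l m (t.getD · 0) ∧ ∀ i < l, t.getD i 0 = s.getD i 0 := by
    funext a
    refine propext ⟨fun ⟨z, h1, l, h2⟩ => ?_, fun ⟨l, s, h⟩ => ?_⟩
    · obtain ⟨s, hs⟩ := ex z l
      refine ⟨l, s, fun m => ?_⟩
      obtain ⟨t, ht⟩ := ex z (l + m)
      exact ⟨t, hc a l m z _ (fun i hi => (ht i (by omega)).symm) fun k _ => ⟨h1 k, h2 k⟩,
        fun i hi => by rw [ht i (by omega), hs i hi]⟩
    · obtain ⟨z, hz⟩ := koenig (V := V a l) (fun m n z h hV k hk => hV k (by omega)) (hc a l)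
        (l := l) (fun k hk s => by
          obtain ⟨B, hB⟩ := (sysY D).exists_good ⟨y a, hY a⟩ (nu s k)
          refine ⟨B, fun z h1 h2 => ?_⟩
          by_contra hcon
          refine (h2 k (by omega)).2 hk ?_
          rw [nu_succ, nu_congr h1]
          exact hB _ (by omega)) (s := (s.getD · 0)) fun m => (h m).elim fun t ht => ⟨_, ht⟩
      exact ⟨z, fun n => (hz (n + 1) n (by omega)).1, l, fun k => (hz (k + 1) k (by omega)).2⟩
  rw [this]
  exact .exists fun l => .exists fun s => .forall fun m => .exists fun t => .and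
    (.forall fun k => .imp measurable_const <| (hT _).and <| .imp measurable_const
      ((measurable_good _ _).comp hy).not) measurable_const

end Pool.Agent.Lib.MP_88d9d7_lc
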