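import Pool.Agent.Lib.MP_88d9d7_lc.Ruler
import Pool.Agent.Shared.BorelDet.Main

/-!
A game in the style of Marks: the graph on the ruler labellings has no Borel colouring with as many
colours as the degree.
-/

set_option linter.unusedSectionVars false

namespace Pool.Agent.Lib.MP_88d9d7_lc

open List

theorem exists_fixed {ι α : Type} [Inhabited α] {R : ι → ι → Prop} (hR : WellFounded R)
    (F : (ι → α) → ι → α) (hF : ∀ f g x, (∀ y, R y x → f y = g y) → F f x = F g x) :
    ∃ f, ∀ x, f x = F f x := by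
  classical
  refine ⟨hR.fix fun x rec => F (fun y => if h : R y x then rec y h else default) x, fun x => ?_⟩
  rw [hR.fix_eq]
  exact hF _ _ x fun y hy => dif_pos hy

theorem meas2 {α : Type*} [MeasurableSpace α] {f g : α → ℕ} (hf : Measurable f) (hg : Measurable g)
    (P : ℕ → ℕ → Prop) : Measurable fun x => P (f x) (g x) :=
  (measurable_of_countable fun p : ℕ × ℕ => P p.1 p.2).comp (hf.prodMk hg)

variable {D : Type} [Fintype D] [LinearOrder D]

/-- Moves: labels for the new edges and a bound on the reserved labels. -/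
abbrev Mv (D : Type) : Type := (List D → ℕ) × ℕ

open Classical in
/-- The labelling produced by a play. -/
noncomputable def lab (i : D) (a b : ℕ → Mv D) (u : List D) : ℕ :=
  if Edge u then (if u.head? = some i then (b (u.length - 1)).1 u else (a u.length).1 u) else 0

/-- Labels reserved by the first player. -/
def OwnQ (a b : ℕ → Mv D) (n : ℕ) : Prop := ∃ r, n < (a r).2 ∧ ∀ s < r, (b s).2 ≤ n

/-- Labels reserved by the second player. -/
def OwnP (a b : ℕ → Mv D) (n : ℕ) : Prop := ∃ r, n < (b r).2 ∧ ∀ s ≤ r, (a s).2 ≤ n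

theorem not_own {a b : ℕ → Mv D} {n : ℕ} (h1 : OwnP a b n) (h2 : OwnQ a b n) : False := by
  obtain ⟨r, h1, h1'⟩ := h1
  obtain ⟨s, h2, h2'⟩ := h2
  rcases le_or_gt s r with h | h
  · exact absurd (h1' s h) (by omega)
  · exact absurd (h2' r h) (by omega)

/-- The edge is visible from the root. -/
def Vis (y : List D → ℕ) (u : List D) : Prop := ∀ w, w <+: u → w ≠ [] → y w ≤ y u

/-- The rules, for the edges in `S` up to depth `r`. -/
def Leg (S : List D → Prop) (O : ℕ → Prop) (y : List D → ℕ) (r : ℕ) : Prop :=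
  ∀ u, Edge u → S u → u.length ≤ r → (Vis y u → O (y u)) ∧
    ∀ v, Edge v → S v → v.length ≤ r → u ≠ v → y u = y v →
      ∃ w, Xor (w <+: u) (w <+: v) ∧ y u < y w

theorem Leg.mono {S : List D → Prop} {O : ℕ → Prop} {y : List D → ℕ} {r s : ℕ}
    (h : Leg S O y r) (hs : s ≤ r) : Leg S O y s := fun u h1 h2 h3 =>
  ⟨(h u h1 h2 (h3.trans hs)).1, fun v h4 h5 h6 => (h u h1 h2 (h3.trans hs)).2 v h4 h5 (h6.trans hs)⟩

theorem leg_zero (S : List D → Prop) (O : ℕ → Prop) (y : List D → ℕ) : Leg S O y 0 :=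
  fun u h1 _ h3 => absurd (length_eq_zero_iff.mp (by omega)) h1.2

theorem head_of_pre {u w : List D} (h : w <+: u) (hw : w ≠ []) : w.head? = u.head? := by
  by_contra hcon
  exact not_prefix_of_head hw hcon h

theorem cross {y : List D → ℕ} {u v : List D} (hne : u.head? ≠ v.head?) (e : y u = y v)
    (h : ¬ (Vis y u ∧ Vis y v)) : ∃ w, Xor (w <+: u) (w <+: v) ∧ y u < y w := by
  rw [not_and_or] at h
  rcases h with h | h <;> simp only [Vis, not_forall, not_le] at h <;> obtain ⟨w, h1, h2, h3⟩ := h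
  · exact ⟨w, Or.inl ⟨h1, not_prefix_of_head h2 (by rwa [head_of_pre h1 h2])⟩, h3⟩
  · exact ⟨w, Or.inr ⟨h1, not_prefix_of_head h2 (by rw [head_of_pre h1 h2]; exact hne.symm)⟩,
      e ▸ h3⟩

/-- The second player follows the rules. -/
def LP (i : D) (a b : ℕ → Mv D) (r : ℕ) : Prop :=
  Leg (fun u => u.head? = some i) (OwnP a b) (lab i a b) r

/-- The first player follows the rules. -/
def LQ (i : D) (a b : ℕ → Mv D) (r : ℕ) : Prop :=
  Leg (fun u => u.head? ≠ some i) (OwnQ a b) (lab i a b) r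

theorem lab_mem {i : D} {a b : ℕ → Mv D} (h1 : ∀ r, LP i a b r) (h2 : ∀ r, LQ i a b r) :
    lab i a b ∈ Y D := by
  refine ⟨fun u hu => if_neg hu, fun u v hu hv hne e => ?_⟩
  by_cases h3 : u.head? = some i <;> by_cases h4 : v.head? = some i
  · exact (h1 _ u hu h3 (le_max_left _ _)).2 v hv h4 (le_max_right _ _) hne e
  · exact cross (by rw [h3]; exact Ne.symm h4) e fun h =>
      not_own ((h1 _ u hu h3 le_rfl).1 h.1) (e ▸ (h2 _ v hv h4 le_rfl).1 h.2)
  · exact cross (by rwa [h4]) e fun h =>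
      not_own ((h1 _ v hv h4 le_rfl).1 h.2) (e ▸ (h2 _ u hu h3 le_rfl).1 h.1)
  · exact (h2 _ u hu h3 (le_max_left _ _)).2 v hv h4 (le_max_right _ _) hne e

theorem measurable_lab (i : D) : Measurable fun p : (ℕ → Mv D) × (ℕ → Mv D) => lab i p.1 p.2 := by
  refine measurable_pi_lambda _ fun u => ?_
  unfold lab
  split_ifs <;> fun_prop

theorem measurable_leg {α : Type*} [MeasurableSpace α] (S : List D → Prop) {O : α → ℕ → Prop}
    (hO : ∀ n, Measurable fun x => O x n) {y : α → List D → ℕ} (hy : Measurable y) (r : ℕ) :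
    Measurable fun x => Leg S (O x) (y x) r := by
  have h : ∀ u, Measurable fun x => y x u := fun u => (measurable_pi_apply u).comp hy
  have hO' : ∀ u, Measurable fun x => O x (y x u) := fun u => by
    have : (fun x => O x (y x u)) = fun x => ∃ n, y x u = n ∧ O x n := by simp
    rw [this]
    exact .exists fun n => (meas2 (h u) (h u) fun a _ => a = n).and (hO n)
  exact .forall fun u => .imp measurable_const <| .imp measurable_const <| .imp measurable_const <|
    .and (.imp (.forall fun w => .imp measurable_const <| .imp measurable_const <|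
      meas2 (h w) (h u) (· ≤ ·)) (hO' u)) <| .forall fun v => .imp measurable_const <|
      .imp measurable_const <| .imp measurable_const <| .imp measurable_const <|
      .imp (meas2 (h u) (h v) (· = ·)) <| .exists fun w => .and measurable_const
        (meas2 (h u) (h w) (· < ·))

/-- Two plays seen from adjacent roots. -/
theorem glue {i : D} {a b a' b' : ℕ → Mv D} {N : ℕ} (ha : (a 0).2 = N) (ha' : (a' 0).2 = N)
    (hb : ∀ r u, (b r).1 (i :: u) = if u = [] then N else (a' r).1 u)
    (hb' : ∀ r u, (b' r).1 (i :: u) = if u = [] then N else (a r).1 u)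
    (hN : N < (b 0).2) (hN' : ∀ r, N < (b' r).2)
    (hown : ∀ n, N < n → OwnQ a' b' n → OwnP a b n) :
    lab i a b = sg i (lab i a' b') ∧ ∀ r, LQ i a' b' r → LP i a b (r + 1) := by
  have e0 : lab i a b [i] = N := by simp [lab, edge_single, hb]
  have e1 : ∀ v, Edge v → v.head? ≠ some i → lab i a b (i :: v) = lab i a' b' v := fun v h1 h2 => by
    simp [lab, h1, h1.cons h2, h2, hb, h1.2]
  refine ⟨funext fun u => ?_, fun r hr => ?_⟩
  · by_cases hu : Edge u
    · rw [sg_edge i _ hu]
      rcases edge_cases i hu with rfl | ⟨v, rfl, hv, hv'⟩ | h'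
      · rw [rho_single, e0]; simp [lab, edge_single, hb']
      · rw [rho_cons i hv.2, e1 v hv hv']
      · rw [rho_of_ne h']
        simp [lab, hu, hu.cons h', h', hb', hu.2]
    · exact (if_neg hu).trans (if_neg hu).symm
  have own0 : OwnP a b N := ⟨0, hN, fun s hs => by rw [Nat.le_zero.mp hs, ha]⟩
  have sub : ∀ {v w : List D}, Edge v → v.head? ≠ some i → w <+: v → w ≠ [] →
      lab i a b (i :: w) = lab i a' b' w := fun h1 h2 h3 h4 =>
    e1 _ ⟨h1.1.pre h3, h4⟩ (by rwa [head_of_pre h3 h4])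
  have one : ∀ v, Edge v → v.head? ≠ some i → v.length ≤ r → lab i a' b' v = N →
      ∃ w, w ≠ [] ∧ w <+: v ∧ N < lab i a b (i :: w) := fun v h1 h2 h3 h4 => by
    have : ¬ Vis (lab i a' b') v := fun h => by
      obtain ⟨s, h5, h6⟩ := (hr v h1 h2 h3).1 h
      rw [h4] at h5 h6
      cases s with
      | zero => omega
      | succ s => exact absurd (h6 s (by omega)) (by have := hN' s; omega)
    simp only [Vis, not_forall, not_le] at this
    obtain ⟨w, h5, h6, h7⟩ := this
    exact ⟨w, h6, h5, by rwa [sub h1 h2 h5 h6, ← h4]⟩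
  intro u hu hh hl
  refine ⟨fun hvis => ?_, fun v hv hh' hl' hne e => ?_⟩
  · rcases edge_cases i hu with rfl | ⟨u', rfl, hu1, hu2⟩ | h'
    · rwa [e0]
    · have h1 := hvis [i] (by simp) (by simp)
      rw [e0] at h1
      rcases h1.eq_or_lt with h1 | h1
      · rwa [← h1]
      · refine hown _ h1 ?_
        rw [e1 u' hu1 hu2]
        refine (hr u' hu1 hu2 (by simpa using hl)).1 fun w h2 h3 => ?_
        rw [← sub hu1 hu2 h2 h3, ← e1 u' hu1 hu2]
        exact hvis _ (by simpa using h2) (by simp)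
    · exact absurd hh h'
  · rcases edge_cases i hu with rfl | ⟨u', rfl, hu1, hu2⟩ | h' <;>
      rcases edge_cases i hv with rfl | ⟨v', rfl, hv1, hv2⟩ | h''
    · exact absurd rfl hne
    · obtain ⟨w, h1, h2, h3⟩ := one v' hv1 hv2 (by simpa using hl') (by rw [← e1 v' hv1 hv2, ← e, e0])
      exact ⟨i :: w, Or.inr ⟨by simpa using h2, by simpa using h1⟩, by rwa [e0]⟩
    · exact absurd hh' h''
    · obtain ⟨w, h1, h2, h3⟩ := one u' hu1 hu2 (by simpa using hl) (by rw [← e1 u' hu1 hu2, e, e0])
      exact ⟨i :: w, Or.inl ⟨by simpa using h2, by simpa using h1⟩, by rwa [e, e0]⟩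
    · rw [e1 u' hu1 hu2, e1 v' hv1 hv2] at e
      obtain ⟨w, h1, h2⟩ := (hr u' hu1 hu2 (by simpa using hl)).2 v' hv1 hv2 (by simpa using hl')
        (by simpa using hne) e
      have hw := (edge_of_xor hu1.1 hv1.1 h1).2
      refine ⟨i :: w, by simpa using h1, ?_⟩
      rw [e1 u' hu1 hu2]
      rcases h1 with h1 | h1
      · rwa [sub hu1 hu2 h1.1 hw]
      · rwa [sub hv1 hv2 h1.1 hw]
    · exact absurd hh' h''
    all_goals exact absurd hh h'

theorem not_first_wins {c : (List D → ℕ) → D} (hc : ∀ y ∈ Y D, ∀ j, c (sg j y) ≠ c y) (i : D)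
    (σ : (ℕ → Mv D) → ℕ → Mv D) (h1 : ∀ b b' r, (∀ s < r, b s = b' s) → σ b r = σ b' r)
    (h2 : ∀ b, (∀ r, LP i (σ b) b r → LQ i (σ b) b r) ∧
      ((∀ r, LP i (σ b) b r) → c (lab i (σ b) b) = i)) : False := by
  set N := (σ default 0).2 with hN
  have h0 : ∀ b, (σ b 0).2 = N := fun b => by rw [h1 b default 0 (by simp)]
  let G : ℕ → (ℕ → Mv D) → ℕ → Mv D := fun d a r =>
    (fun u => if u.tail = [] then N else (a r).1 u.tail, max (a (r + d)).2 (N + 1))
  obtain ⟨b, hb⟩ := exists_fixed (R := (· < ·)) (α := Mv D) wellFounded_lt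
    (fun b => G 0 (σ (G 1 (σ b)))) fun f g r h => by
      have : σ (G 1 (σ f)) r = σ (G 1 (σ g)) r := h1 _ _ r fun s hs => by
        simp only [G]
        rw [h1 f g s fun t ht => h t (by omega), h1 f g (s + 1) fun t ht => h t (by omega)]
      simp only [G, Nat.add_zero] at this ⊢
      rw [this]
  set a := σ b with ha
  set b' := G 1 a with hb'
  set a' := σ b' with ha'
  have e1 : ∀ r u, (b r).1 (i :: u) = if u = [] then N else (a' r).1 u := fun r u => by
    rw [hb r]; rfl
  have e2 : ∀ r u, (b' r).1 (i :: u) = if u = [] then N else (a r).1 u := fun r u => rfl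
  have e3 : ∀ r, (b r).2 = max (a' r).2 (N + 1) := fun r => by rw [hb r]; rfl
  have e4 : ∀ r, (b' r).2 = max (a (r + 1)).2 (N + 1) := fun r => rfl
  have e5 : (a 0).2 = N := h0 b
  have e6 : (a' 0).2 = N := h0 b'
  obtain ⟨g1, g2⟩ := glue (i := i) e5 e6 e1 e2 (by rw [e3]; omega)
    (fun r => by rw [e4]; omega) fun n hn ⟨r, h3, h4⟩ => ⟨r, by rw [e3]; omega, fun s hs => by
      cases s with
      | zero => omega
      | succ s => have := h4 s (by omega); rw [e4] at this; omega⟩
  obtain ⟨-, g4⟩ := glue (i := i) e6 e5 e2 e1 (by rw [e4]; omega)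
    (fun r => by rw [e3]; omega) fun n hn ⟨r, h3, h4⟩ => by
      cases r with
      | zero => omega
      | succ r =>
        exact ⟨r, by rw [e4]; omega, fun s hs => by
          have := h4 s (by omega); rw [e3] at this; omega⟩
  have key : ∀ r, LP i a b r ∧ LP i a' b' r := by
    intro r
    induction r with
    | zero => exact ⟨leg_zero _ _ _, leg_zero _ _ _⟩
    | succ r ih => exact ⟨g2 r ((h2 b').1 r ih.2), g4 r ((h2 b).1 r ih.1)⟩
  refine hc _ (lab_mem (fun r => (key r).2) fun r => (h2 b').1 r (key r).2) i ?_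
  rw [← g1, (h2 b).2 fun r => (key r).1, (h2 b').2 fun r => (key r).2]

theorem not_second_wins {c : (List D → ℕ) → D} (τ : D → (ℕ → Mv D) → ℕ → Mv D)
    (h1 : ∀ i a a' r, (∀ s ≤ r, a s = a' s) → τ i a r = τ i a' r)
    (h2 : ∀ i a, ¬ ((∀ r, LP i a (τ i a) r → LQ i a (τ i a) r) ∧
      ((∀ r, LP i a (τ i a) r) → c (lab i a (τ i a)) = i))) : False := by
  classical
  let R : ℕ × D → ℕ × D → Prop := fun x y => x.1 < y.1 ∨ x.1 = y.1 ∧ x.2 < y.2
  have hR : WellFounded R := by
    refine Subrelation.wf ?_ (InvImage.wf toLex (wellFounded_lt (α := ℕ ×ₗ D)))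
    exact fun h => Prod.Lex.toLex_lt_toLex.mpr h
  let I : D → ℕ → Finset (ℕ × D) := fun i r =>
    (Finset.range (r + 1) ×ˢ Finset.univ).filter fun x => R x (r, i) ∧ x.2 ≠ i
  have hI : ∀ i r x, x ∈ I i r ↔ R x (r, i) ∧ x.2 ≠ i := fun i r x => by
    simp only [I, R, Finset.mem_filter, Finset.mem_product, Finset.mem_range, Finset.mem_univ,
      and_true, and_iff_right_iff_imp]
    omega
  let A : D → (ℕ × D → Mv D) → ℕ → Mv D := fun i B r =>
    (fun u => if r = 0 then 0 else (B (r - 1, u.head?.getD i)).1 u, (I i r).sup fun x => (B x).2)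
  obtain ⟨B, hB⟩ := exists_fixed (α := Mv D) hR (fun B x => τ x.2 (A x.2 B) x.1) fun f g x h =>
    h1 _ _ _ _ fun s hs => by
      refine Prod.ext (funext fun u => ?_) (Finset.sup_congr rfl fun y hy => ?_)
      · simp only [A]
        split_ifs with h0
        · rfl
        · rw [h _ (Or.inl (by dsimp only; omega))]
      · rw [h y]
        rcases ((hI _ _ _).mp hy).1 with h3 | h3 <;> rcases hs.eq_or_lt with h4 | h4 <;>
          simp only [R] at * <;> first | omega | exact Or.inr ⟨h3.1.trans h4, h3.2⟩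
  have hB' : ∀ i r, τ i (A i B) r = B (r, i) := fun i r => (hB (r, i)).symm
  let y : List D → ℕ := fun u => if Edge u then
    (match u.head? with | some j => (B (u.length - 1, j)).1 u | none => 0) else 0
  have hy : ∀ i, lab i (A i B) (τ i (A i B)) = y := fun i => funext fun u => by
    by_cases hu : Edge u
    · cases u with
      | nil => exact absurd rfl hu.2
      | cons j u =>
        simp only [lab, y, hu, if_true, hB', A, head?_cons, Option.some.injEq]
        split_ifs with h h'
        · rw [h]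
        · simp at h'
        · rfl
    · exact (if_neg hu).trans (if_neg hu).symm
  let F : D → ℕ → Prop := fun j n => ∃ r, n < (B (r, j)).2 ∧ ∀ x, R x (r, j) → x.2 ≠ j → (B x).2 ≤ n
  have f1 : ∀ j n, OwnP (A j B) (τ j (A j B)) n → F j n := fun j n ⟨r, h3, h4⟩ =>
    ⟨r, by rwa [hB'] at h3, fun x h5 h6 =>
      (Finset.le_sup (f := fun x => (B x).2) ((hI j r x).mpr ⟨h5, h6⟩)).trans (h4 r le_rfl)⟩
  have f2 : ∀ j k n, j ≠ k → F j n → F k n → False := by
    rintro j k n hjk ⟨r, h3, h4⟩ ⟨s, h5, h6⟩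
    have : R (r, j) (s, k) ∨ R (s, k) (r, j) := by
      rcases lt_trichotomy r s with h | h | h
      · exact Or.inl (Or.inl h)
      · rcases lt_or_gt_of_ne hjk with h' | h'
        · exact Or.inl (Or.inr ⟨h, h'⟩)
        · exact Or.inr (Or.inr ⟨h.symm, h'⟩)
      · exact Or.inr (Or.inl h)
    rcases this with h | h
    · exact absurd (h6 _ h hjk) (by omega)
    · exact absurd (h4 _ h hjk.symm) (by omega)
  have f3 : ∀ i j n, j ≠ i → F j n → OwnQ (A i B) (τ i (A i B)) n := by
    rintro i j n hji ⟨r, h3, h4⟩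
    rcases lt_or_gt_of_ne hji with h | h
    · exact ⟨r, h3.trans_le (Finset.le_sup (f := fun x => (B x).2)
        ((hI i r (r, j)).mpr ⟨Or.inr ⟨rfl, h⟩, hji⟩)), fun s hs => by
          rw [hB']; exact h4 _ (Or.inl hs) hji.symm⟩
    · refine ⟨r + 1, h3.trans_le (Finset.le_sup (f := fun x => (B x).2)
        ((hI i (r + 1) (r, j)).mpr ⟨Or.inl (Nat.lt_succ_self r), hji⟩)), fun s hs => ?_⟩
      rw [hB']
      refine h4 _ ?_ hji.symm
      rcases (Nat.lt_succ_iff.mp hs).eq_or_lt with h5 | h5
      · exact Or.inr ⟨h5, h⟩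
      · exact Or.inl h5
  have hd : ∀ u : List D, Edge u → ∃ j, u.head? = some j := fun u hu => by
    cases u with
    | nil => exact absurd rfl hu.2
    | cons j u => exact ⟨j, rfl⟩
  have f4 : ∀ r, (∀ j, LP j (A j B) (τ j (A j B)) r) → ∀ i, LQ i (A i B) (τ i (A i B)) r := by
    intro r h i u hu hh hl
    simp only [LP, hy] at h
    rw [hy]
    obtain ⟨j, hj⟩ := hd u hu
    have own : Vis y u → F j (y u) := fun hv => f1 j _ ((h j u hu hj hl).1 hv)
    refine ⟨fun hv => f3 i j _ (fun e => hh (e ▸ hj)) (own hv), fun v hv hh' hl' hne e => ?_⟩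
    obtain ⟨k, hk⟩ := hd v hv
    by_cases hjk : j = k
    · exact (h j u hu hj hl).2 v hv (hjk ▸ hk) hl' hne e
    · exact cross (by rw [hj, hk]; simpa using hjk) e fun h' =>
        f2 j k _ hjk (own h'.1) (e ▸ f1 k _ ((h k v hv hk hl').1 h'.2))
  have f5 : ∀ r j, LP j (A j B) (τ j (A j B)) r := by
    intro r
    induction r using Nat.strong_induction_on with
    | _ r ih =>
      intro j
      by_contra hcon
      refine h2 j (A j B) ⟨fun s hs => ?_, fun h => absurd (h r) hcon⟩
      rcases lt_or_ge s r with h | h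
      · exact f4 s (ih s h) j
      · exact absurd (Leg.mono hs h) hcon
  exact h2 (c y) (A (c y) B) ⟨fun r _ => f4 r (f5 r) _, fun _ => by rw [hy]⟩

/-- There is no Borel proper colouring with colours in `D`. -/
theorem no_colouring [MeasurableSpace D] [MeasurableSingletonClass D] (c : (List D → ℕ) → D)
    (hm : Measurable c) : ¬ ∀ y ∈ Y D, ∀ j, c (sg j y) ≠ c y := by
  intro hc
  have hP : ∀ n, Measurable fun p : (ℕ → Mv D) × (ℕ → Mv D) => OwnP p.1 p.2 n := fun n =>
    .exists fun r => .and (meas2 measurable_const (by fun_prop) (· < ·)) <|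
      .forall fun s => .imp measurable_const (meas2 (by fun_prop) measurable_const (· ≤ ·))
  have hQ : ∀ n, Measurable fun p : (ℕ → Mv D) × (ℕ → Mv D) => OwnQ p.1 p.2 n := fun n =>
    .exists fun r => .and (meas2 measurable_const (by fun_prop) (· < ·)) <|
      .forall fun s => .imp measurable_const (meas2 (by fun_prop) measurable_const (· ≤ ·))
  have hW : ∀ i, MeasurableSet {p : (ℕ → Mv D) × (ℕ → Mv D) |
      (∀ r, LP i p.1 p.2 r → LQ i p.1 p.2 r) ∧ ((∀ r, LP i p.1 p.2 r) → c (lab i p.1 p.2) = i)} :=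
    fun i => measurableSet_setOfPred.mpr <|
      .and (.forall fun r => .imp (measurable_leg _ hP (measurable_lab i) r)
        (measurable_leg _ hQ (measurable_lab i) r))
      (.imp (.forall fun r => measurable_leg _ hP (measurable_lab i) r)
        (measurableSet_setOfPred.mp ((hm.comp (measurable_lab i)) (measurableSet_singleton i))))
  have := fun i => (Shared.BorelDet.borel_determinacy (hW i)).resolve_left
    fun ⟨σ, h1, h2⟩ => not_first_wins hc i σ h1 h2
  choose τ h1 h2 using this
  exact not_second_wins τ h1 h2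

end Pool.Agent.Lib.MP_88d9d7_lc
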