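import Pool.Agent.Lib.MP_88d9d7_lc.Upper
import Pool.Agent.Lib.MP_88d9d7_lc.Dom

/-!
Hardness: the reduction.
-/

set_option synthInstance.maxSize 2048
set_option linter.unusedSectionVars false

namespace Pool.Agent.Lib.MP_88d9d7_lc

open Set

section Graph

variable {Δ : ℕ} [Nontrivial (Fin Δ)]

theorem Sys.graph (S : Sys (Fin Δ) X) (hτ : ∀ j, Measurable (S.τ j)) (hφ : Measurable S.φ) :
    IsGraph {q | ∃ j, S.τ j q.1 = q.2} ∧ Regular Δ {q | ∃ j, S.τ j q.1 = q.2} ∧
      Acyclic {q | ∃ j, S.τ j q.1 = q.2} ∧ Hyperfinite {q | ∃ j, S.τ j q.1 = q.2} := by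
  refine ⟨⟨?_, fun x ⟨j, h⟩ => S.free x (edge_single j) h⟩, fun x => ?_, ?_, ?_⟩
  · rintro x y ⟨j, rfl : S.τ j x = y⟩
    exact ⟨j, S.inv j x⟩
  · have h2 : Function.Injective fun j => S.τ j x := fun j k e => by
      by_contra hne
      refine S.free x (u := [j, k]) ⟨by simpa [Red] using hne, by simp⟩ ?_
      dsimp only at e
      rw [act_cons, act_cons, act_nil, e, S.inv]
    have h1 : {y | (x, y) ∈ {q : X × X | ∃ j, S.τ j q.1 = q.2}} = range fun j => S.τ j x := rfl
    rw [h1, ← image_univ, h2.encard_image, encard_univ]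
    simp
  · rintro ⟨n, x, h1, h2, h3, h4⟩
    choose! j hj using h4
    have e : ∀ i ≤ n, act S.τ (x 0) ((List.range i).map j) = x i := fun i hi => by
      induction i with
      | zero => rfl
      | succ i ih =>
        rw [List.range_succ, List.map_append, act_append, ih (by omega)]
        exact hj i (by omega)
    refine S.free (x 0) (u := (List.range n).map j) ⟨?_, by simp; omega⟩ ((e n le_rfl).trans h3)
    obtain ⟨n, rfl⟩ : ∃ m, n = m + 1 := ⟨n - 1, by omega⟩
    rw [Red, List.isChain_map, List.isChain_range_succ]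
    intro m hm e'
    have h5 : x (m + 2) = x m := by
      have h6 := hj m (by omega)
      have h7 := hj (m + 1) (by omega)
      dsimp only at h6 h7
      rw [← h7, ← h6, ← e', S.inv]
    rcases (Nat.succ_le_of_lt hm).eq_or_lt with h8 | h8
    · have := h2 (x₁ := 0) (x₂ := m) (by simp) (by simp; omega) (by rw [← h5, ← h3, ← h8])
      omega
    · have := h2 (x₁ := m + 2) (x₂ := m) (by simp; omega) (by simp; omega) h5
      omega
  · refine ⟨fun n => {q | ∃ u, Along S.τ (fun z j => S.φ z [j] < n) q.1 u ∧ act S.τ q.1 u = q.2},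
      fun n => ⟨?_, ⟨fun x => ⟨[], trivial, rfl⟩, ?_, ?_⟩,
        fun q ⟨u, h1, h2⟩ => ⟨u, h1.mono fun _ _ h => by omega, h2⟩, fun x => S.finite_class x n⟩,
      fun x y => ⟨fun h => ?_, ?_⟩⟩
    · exact measurableSet_setOfPred.mpr <| .exists fun u => .and
        ((measurable_along hτ (fun j => meas2 ((measurable_pi_apply [j]).comp hφ) measurable_const
          (· < ·)) u).comp measurable_fst) (measurableSet_setOfPred.mp (measurableSet_eq_fun
            ((measurable_act' hτ u).comp measurable_fst) measurable_snd))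
    · rintro x y ⟨u, h1, rfl : act S.τ x u = y⟩
      exact ⟨u.reverse, S.along_reverse (fun z j h => by rwa [S.eqv, sg_single]) h1,
        S.act_reverse x u⟩
    · rintro x y z ⟨u, h1, rfl : act S.τ x u = y⟩ ⟨v, h2, h3⟩
      exact ⟨u ++ v, along_append.mpr ⟨h1, h2⟩, by rw [act_append]; exact h3⟩
    · induction h with
      | refl => exact ⟨0, [], trivial, rfl⟩
      | @tail b c _ hbc ih =>
        obtain ⟨n, u, h1, rfl : act S.τ x u = b⟩ := ih
        obtain ⟨j, hj⟩ := hbc
        exact ⟨n + S.φ (act S.τ x u) [j] + 1, u ++ [j], along_append.mpr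
          ⟨h1.mono fun _ _ h => by omega, by dsimp only; omega, trivial⟩, by rw [act_append]; exact hj⟩
    · rintro ⟨-, u, -, rfl : act S.τ x u = y⟩
      induction u generalizing x with
      | nil => exact .refl
      | cons j u ih => exact .head ⟨j, rfl⟩ (ih _)

end Graph

variable {D : Type} [Fintype D] [LinearOrder D]

/-- Transport along a bijection. -/
def Sys.map {Z Z' : Type} (S : Sys D Z) (e : Z ≃ Z') : Sys D Z' where
  τ j x := e (S.τ j (e.symm x))
  φ x := S.φ (e.symm x)
  inv j x := by simp [S.inv]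
  mem _ := S.mem _
  eqv j x := by simp [S.eqv]

instance : PolishSpace (Y D) := isClosed_Y.polishSpace

/-- A three-colourable invariant part. -/
abbrev Y1 (D : Type) [Fintype D] [LinearOrder D] (z : ℕ → ℕ) : Type := {y : Y D // ¬ Dom z y.1}

instance (z : ℕ → ℕ) : StandardBorelSpace (Y1 D z) :=
  (measurableSet_setOfPred.mpr ((measurable_dom z).comp measurable_subtype_coe).not).standardBorel

/-- The action on the three-colourable part. -/
noncomputable def sg1 {z : ℕ → ℕ} (j : D) (v : Y1 D z) : Y1 D z :=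
  ⟨(sysY D).τ j v.1, fun h => v.2 ((dom_sg v.1.2 j).mp h)⟩

theorem measurable_sgY (j : D) : Measurable ((sysY D).τ j) :=
  ((measurable_sg j).comp measurable_subtype_coe).subtype_mk

theorem measurable_sg1 {z : ℕ → ℕ} (j : D) : Measurable (sg1 (z := z) j) :=
  ((measurable_sgY j).comp measurable_subtype_coe).subtype_mk

/-- No branch of `T` is below `y`. -/
def Act (T : List ℕ → Bool) (y : Y D) : Prop := ¬ ∃ z, Br (T ·) z ∧ Dom z y.1

theorem act_sg (T : List ℕ → Bool) (y : Y D) (j : D) : Act T ((sysY D).τ j y) ↔ Act T y :=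
  not_congr (exists_congr fun _ => and_congr_right fun _ => dom_sg y.2 j)

theorem measurable_Act {α : Type} [MeasurableSpace α] {T : α → List ℕ → Bool} (hT : Measurable T)
    {y : α → Y D} (hy : Measurable y) : Measurable fun a => Act (T a) (y a) :=
  (measurable_exists_dom (fun t => measurableSet_setOfPred.mp (measurableSet_eq_fun
    ((measurable_pi_apply t).comp hT) measurable_const)) (measurable_subtype_coe.comp hy)
    fun a => (y a).2).not

open Classical in
/-- The disjoint union of the parts given by a family of trees, filled up by colourable copies. -/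
noncomputable def sysZ (z : ℕ → ℕ) (T : (ℕ → ℕ) → List ℕ → Bool) :
    Sys D ((ℕ → ℕ) × Y D × Y1 D z) where
  τ j q := if Act (T q.1) q.2.1 then (q.1, (sysY D).τ j q.2.1, q.2.2)
    else (q.1, q.2.1, sg1 j q.2.2)
  φ q := if Act (T q.1) q.2.1 then q.2.1.1 else q.2.2.1.1
  inv j q := by
    by_cases h : Act (T q.1) q.2.1
    · simp [h, act_sg, (sysY D).inv]
    · simp [h, sg1, (sysY D).inv]
  mem q := by
    split_ifs
    · exact q.2.1.2
    · exact q.2.2.1.2
  eqv j q := by
    by_cases h : Act (T q.1) q.2.1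
    · simp only [h, if_true, act_sg]; rfl
    · simp only [h, if_false]; rfl

theorem measurable_sysZ {α : Type} [MeasurableSpace α] (z : ℕ → ℕ)
    {T : α → (ℕ → ℕ) → List ℕ → Bool} (hT : Measurable fun x : α × (ℕ → ℕ) => T x.1 x.2)
    {a : α → (ℕ → ℕ) × Y D × Y1 D z} (ha : Measurable a) :
    (∀ j, Measurable fun x => (sysZ z (T x)).τ j (a x)) ∧
      Measurable fun x => (sysZ z (T x)).φ (a x) := by
  have h : MeasurableSet {x | Act (T x (a x).1) (a x).2.1} := measurableSet_setOfPred.mpr
    (measurable_Act (hT.comp (measurable_id.prodMk ha.fst)) ha.snd.fst)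
  exact ⟨fun j => .ite h (ha.fst.prodMk (((measurable_sgY j).comp ha.snd.fst).prodMk ha.snd.snd))
      (ha.fst.prodMk (ha.snd.fst.prodMk ((measurable_sg1 j).comp ha.snd.snd))),
    .ite h (measurable_subtype_coe.comp ha.snd.fst)
      (measurable_subtype_coe.comp (measurable_subtype_coe.comp ha.snd.snd))⟩

theorem no_colouring' [MeasurableSpace D] [MeasurableSingletonClass D] [Nonempty D] (c : Y D → D)
    (hm : Measurable c) : ¬ ∀ y j, c ((sysY D).τ j y) ≠ c y := by
  intro h
  have he : MeasurableEmbedding (Subtype.val : Y D → List D → ℕ) :=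
    MeasurableEmbedding.subtype_coe isClosed_Y.measurableSet
  refine no_colouring _ (he.measurable_extend hm
    (measurable_const (a := Classical.arbitrary D))) fun y hy j => ?_
  have e1 := he.injective.extend_apply c (fun _ => Classical.arbitrary D) ⟨y, hy⟩
  have e2 := he.injective.extend_apply c (fun _ => Classical.arbitrary D) ((sysY D).τ j ⟨y, hy⟩)
  exact fun e => h ⟨y, hy⟩ j (e2.symm.trans (e.trans e1))

end Pool.Agent.Lib.MP_88d9d7_lc
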