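import Mathlib

/-!
Edge labellings of the regular tree with the ruler property: between two edges with the same label
there is an edge with a larger label.  Edges are named by nonempty reduced words.
-/

set_option linter.unusedSectionVars false

namespace Pool.Agent.Lib.MP_88d9d7_lc

open List

variable {D : Type} [DecidableEq D]

/-- Reduced words. -/
def Red (u : List D) : Prop := u.IsChain (· ≠ ·)

/-- Names of edges. -/
def Edge (u : List D) : Prop := Red u ∧ u ≠ []

theorem red_cons {j : D} {u : List D} : Red (j :: u) ↔ u.head? ≠ some j ∧ Red u := by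
  cases u with
  | nil => simp [Red]
  | cons k u => simp [Red, eq_comm]

theorem red_nil : Red ([] : List D) := by simp [Red]

theorem Red.pre {u w : List D} (h : Red u) (hw : w <+: u) : Red w := by
  obtain ⟨t, rfl⟩ := hw
  exact IsChain.left_of_append h

theorem edge_single (j : D) : Edge [j] := ⟨by simp [Red], by simp⟩

/-- Renaming of edges when the root moves along `i`. -/
def rho (i : D) (u : List D) : List D :=
  if u = [i] then [i] else if u.head? = some i then u.tail else i :: u

theorem rho_single (i : D) : rho i [i] = [i] := if_pos rfl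

theorem rho_cons (i : D) {u : List D} (h : u ≠ []) : rho i (i :: u) = u := by
  simp [rho, h]

theorem rho_of_ne {i : D} {u : List D} (h : u.head? ≠ some i) : rho i u = i :: u := by
  have : u ≠ [i] := by rintro rfl; simp at h
  simp [rho, h, this]

theorem edge_cases (i : D) {u : List D} (h : Edge u) :
    u = [i] ∨ (∃ v, u = i :: v ∧ Edge v ∧ v.head? ≠ some i) ∨ u.head? ≠ some i := by
  by_cases h1 : u.head? = some i
  · cases u with
    | nil => simp at h1
    | cons k v =>
      obtain rfl : k = i := by simpa using h1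
      by_cases hv : v = []
      · exact Or.inl (by rw [hv])
      · exact Or.inr (Or.inl ⟨v, rfl, ⟨(red_cons.mp h.1).2, hv⟩, (red_cons.mp h.1).1⟩)
  · exact Or.inr (Or.inr h1)

theorem Edge.cons {i : D} {u : List D} (h : Edge u) (hi : u.head? ≠ some i) : Edge (i :: u) :=
  ⟨red_cons.mpr ⟨hi, h.1⟩, by simp⟩

theorem Edge.rho (i : D) {u : List D} (h : Edge u) : Edge (rho i u) ∧ rho i (rho i u) = u := by
  rcases edge_cases i h with rfl | ⟨v, rfl, hv, hv'⟩ | h'
  · rw [rho_single, rho_single]; exact ⟨h, rfl⟩
  · rw [rho_cons i hv.2, rho_of_ne hv']; exact ⟨hv, rfl⟩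
  · rw [rho_of_ne h', rho_cons i h.2]; exact ⟨h.cons h', rfl⟩

theorem not_prefix_of_head {u w : List D} (hw : w ≠ []) (h : w.head? ≠ u.head?) : ¬ w <+: u := by
  rintro ⟨v, rfl⟩
  cases w with
  | nil => exact hw rfl
  | cons k w => simp at h

theorem prefix_rho (i : D) {u w : List D} (hu : Edge u) (hw : Edge w) (hne : w ≠ u) :
    w <+: u ↔ Xor (rho i w <+: rho i u) (w = [i]) := by
  have np : ∀ {a b : List D}, a ≠ [] → a.head? ≠ some i → ¬ a <+: i :: b := fun h1 h2 =>
    not_prefix_of_head h1 h2
  have np' : ∀ {a b : List D}, b.head? ≠ some i → ¬ i :: a <+: b := fun h2 =>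
    not_prefix_of_head (by simp) (Ne.symm h2)
  rcases edge_cases i hw with rfl | ⟨w', rfl, hw1, hw2⟩ | hw1 <;>
    rcases edge_cases i hu with rfl | ⟨u', rfl, hu1, hu2⟩ | hu1
  · exact absurd rfl hne
  · simp [rho_single, rho_cons i hu1.2, np' hu2]
  · simp [rho_single, rho_of_ne hu1, np' hu1]
  · simp [rho_single, rho_cons i hw1.2, np hw1.2 hw2, hw1.2]
  · simp [rho_cons i hw1.2, rho_cons i hu1.2, hw1.2, xor_def]
  · simp [rho_cons i hw1.2, rho_of_ne hu1, hw1.2, np hw1.2 hw2, np' hu1]
  · simp [rho_single, rho_of_ne hw1, np hw.2 hw1, hw.2, hne]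
  · have : w ≠ [i] := by rintro rfl; simp at hw1
    simp [rho_of_ne hw1, rho_cons i hu1.2, np hw.2 hw1, np' hu2, this]
  · have : w ≠ [i] := by rintro rfl; simp at hw1
    simp [rho_of_ne hw1, rho_of_ne hu1, this, xor_def]

theorem edge_of_xor {u v w : List D} (hu : Red u) (hv : Red v) (h : Xor (w <+: u) (w <+: v)) :
    Edge w := by
  refine ⟨?_, ?_⟩
  · rcases h with h | h
    · exact hu.pre h.1
    · exact hv.pre h.1
  · rintro rfl
    simp at h

open Classical in
/-- Moving the root along `i`. -/
noncomputable def sg (i : D) (y : List D → ℕ) : List D → ℕ :=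
  fun u => if Edge u then y (rho i u) else 0

theorem sg_edge (i : D) (y : List D → ℕ) {u : List D} (h : Edge u) : sg i y u = y (rho i u) :=
  if_pos h

/-- Labellings with the ruler property. -/
def Y (D : Type) : Set (List D → ℕ) := {y | (∀ u, ¬ Edge u → y u = 0) ∧
  ∀ u v, Edge u → Edge v → u ≠ v → y u = y v → ∃ w, Xor (w <+: u) (w <+: v) ∧ y u < y w}

theorem sg_mem (i : D) {y : List D → ℕ} (hy : y ∈ Y D) : sg i y ∈ Y D := by
  refine ⟨fun u hu => if_neg hu, fun u v hu hv hne h => ?_⟩
  rw [sg_edge i y hu, sg_edge i y hv] at h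
  obtain ⟨w, h1, h2⟩ := hy.2 _ _ (hu.rho i).1 (hv.rho i).1
    (fun e => hne (by rw [← (hu.rho i).2, e, (hv.rho i).2])) h
  have hw := (edge_of_xor (hu.rho i).1.1 (hv.rho i).1.1 h1).rho i
  refine ⟨rho i w, ?_, by rwa [sg_edge i y hu, sg_edge i y hw.1, hw.2]⟩
  rw [prefix_rho i hu hw.1 (fun e => by rw [← e, hw.2] at h2; omega),
    prefix_rho i hv hw.1 (fun e => by rw [h, ← e, hw.2] at h2; omega), hw.2]
  revert h1
  unfold Xor
  tauto

theorem sg_sg (i : D) {y : List D → ℕ} (hy : y ∈ Y D) : sg i (sg i y) = y := by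
  funext u
  by_cases hu : Edge u
  · rw [sg_edge i _ hu, sg_edge i _ (hu.rho i).1, (hu.rho i).2]
  · rw [hy.1 u hu]; exact if_neg hu

theorem sg_single (i : D) (y : List D → ℕ) : sg i y [i] = y [i] := by
  rw [sg_edge i y (edge_single i), rho_single]

theorem continuous_sg (i : D) : Continuous (sg i) := by
  refine continuous_pi fun u => ?_
  unfold sg
  split_ifs
  · exact continuous_apply _
  · exact continuous_const

theorem isClosed_Y : IsClosed (Y D) := by
  have cl : ∀ (u v : List D) (P : ℕ → ℕ → Prop), IsClosed {y : List D → ℕ | P (y u) (y v)} :=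
    fun u v P => (isClosed_discrete {p : ℕ × ℕ | P p.1 p.2}).preimage
      (f := fun y : List D → ℕ => (y u, y v)) (by fun_prop)
  simp only [Y, Set.ofPred_and, Set.ofPred_forall]
  refine (isClosed_iInter fun u => isClosed_iInter fun _ => cl u u fun a _ => a = 0).inter
    (isClosed_iInter fun u => isClosed_iInter fun v => isClosed_iInter fun _ =>
      isClosed_iInter fun _ => isClosed_iInter fun _ => ?_)
  have hfin : {w : List D | Xor (w <+: u) (w <+: v)}.Finite := by
    refine ((u.inits.finite_toSet).union (v.inits.finite_toSet)).subset fun w hw => ?_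
    rcases hw with h | h <;> simp [h.1]
  have := (cl u v fun a b => a ≠ b).union
    (hfin.isClosed_biUnion fun w _ => cl u w fun a b => a < b)
  refine (congrArg IsClosed ?_).mp this
  ext y
  simp [imp_iff_not_or]

/-- The action of words. -/
def act {Z : Type} (τ : D → Z → Z) (z : Z) (u : List D) : Z := u.foldl (fun z j => τ j z) z

theorem act_nil {Z : Type} (τ : D → Z → Z) (z : Z) : act τ z [] = z := rfl

theorem act_cons {Z : Type} (τ : D → Z → Z) (z : Z) (j : D) (u : List D) :
    act τ z (j :: u) = act τ (τ j z) u := rfl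

theorem act_append {Z : Type} (τ : D → Z → Z) (z : Z) (u v : List D) :
    act τ z (u ++ v) = act τ (act τ z u) v := foldl_append ..

theorem act_apply (y : List D → ℕ) {u v : List D} (h : Red (u ++ v)) (hv : v ≠ []) :
    act sg y u v = y (u ++ v) := by
  induction u generalizing y with
  | nil => rfl
  | cons j u ih =>
    obtain ⟨h1, h2⟩ := (red_cons (u := u ++ v)).mp h
    rw [act_cons, ih _ h2, sg_edge _ _ ⟨h2, by simp [hv]⟩, rho_of_ne h1]
    rfl

theorem ruler_seq (a : ℕ → ℕ) (N : ℕ)
    (h : ∀ s t, s < t → t < N → a s = a t → ∃ r, s < r ∧ r < t ∧ a s < a r) (n : ℕ) :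
    ∀ s L, s + L ≤ N → (∀ t, s ≤ t → t < s + L → a t < n) → L < 2 ^ n := by
  induction n with
  | zero =>
    intro s L _ h'
    by_contra hcon
    exact absurd (h' s le_rfl (by omega)) (by omega)
  | succ n ih =>
    intro s L hN h'
    rw [pow_succ]
    by_cases hex : ∃ t, s ≤ t ∧ t < s + L ∧ a t = n
    · obtain ⟨t, h1, h2, h3⟩ := hex
      have e1 := ih s (t - s) (by omega) fun r h4 h5 => by
        have := h' r h4 (by omega)
        by_contra hcon
        obtain ⟨q, h6, h7, h8⟩ := h r t (by omega) (by omega) (by omega)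
        have := h' q (by omega) (by omega)
        omega
      have e2 := ih (t + 1) (s + L - (t + 1)) (by omega) fun r h4 h5 => by
        have := h' r (by omega) (by omega)
        by_contra hcon
        obtain ⟨q, h6, h7, h8⟩ := h t r (by omega) (by omega) (by omega)
        have := h' q (by omega) (by omega)
        omega
      omega
    · have := ih s L hN fun t h1 h2 => by
        have := h' t h1 h2
        by_contra hcon
        exact hex ⟨t, h1, h2, by omega⟩
      omega

theorem length_lt {y : List D → ℕ} (hy : y ∈ Y D) {u : List D} (hu : Red u) {n : ℕ}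
    (h : ∀ w, w <+: u → w ≠ [] → y w < n) : u.length < 2 ^ n := by
  have hne : ∀ t < u.length, u.take (t + 1) ≠ [] := fun t ht e => by
    have := congrArg length e
    simp only [length_take, length_nil] at this
    omega
  refine ruler_seq (fun t => y (u.take (t + 1))) u.length (fun s t hst ht e => ?_) n 0 _ (by omega)
    fun t _ ht => h _ (take_prefix _ _) (hne t (by omega))
  obtain ⟨w, h1, h2⟩ := hy.2 _ _ ⟨hu.pre (take_prefix _ _), hne s (by omega)⟩
    ⟨hu.pre (take_prefix _ _), hne t ht⟩ (fun e => by
      have := congrArg length e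
      simp only [length_take] at this
      omega) e
  have hst' : u.take (s + 1) <+: u.take (t + 1) := take_prefix_take_left (by omega)
  have h3 : w <+: u.take (t + 1) ∧ ¬ w <+: u.take (s + 1) := by
    rcases h1 with h1 | h1
    · exact absurd (h1.1.trans hst') h1.2
    · exact h1
  have hw : w = u.take w.length := prefix_iff_eq_take.mp (h3.1.trans (take_prefix _ _))
  have h4 : w.length ≤ t + 1 := h3.1.length_le.trans (by simp)
  have h5 : s + 1 < w.length := by
    by_contra hcon
    exact h3.2 (hw ▸ take_prefix_take_left (by omega))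
  have h6 : w.length ≠ t + 1 := fun e' => by
    rw [hw, e'] at h2
    omega
  refine ⟨w.length - 1, by omega, by omega, ?_⟩
  rwa [show w.length - 1 + 1 = w.length by omega, ← hw]

/-- Alternating words. -/
def alt (a b : D) : ℕ → List D
  | 0 => []
  | n + 1 => a :: alt b a n

theorem alt_spec {a b : D} (h : a ≠ b) (n : ℕ) :
    Red (alt a b n) ∧ (alt a b n).length = n ∧ (alt a b n).head? ≠ some b := by
  induction n generalizing a b with
  | zero => simp [alt, red_nil]
  | succ n ih =>
    obtain ⟨h1, h2, h3⟩ := ih h.symm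
    exact ⟨red_cons.mpr ⟨h3, h1⟩, by simp [alt, h2], by simpa [alt] using h⟩

theorem red_append {u v : List D} (hu : Red u) (hv : Red v) (hne : u ≠ [])
    (h : v.head? ≠ some (u.getLast hne)) : Red (u ++ v) := by
  refine IsChain.append hu hv fun x hx z hz e => h ?_
  rw [getLast?_eq_some_getLast hne] at hx
  obtain rfl : u.getLast hne = x := by simpa using hx
  rw [e]
  exact hz

/-- The action is free. -/
theorem act_ne [Nontrivial D] {y : List D → ℕ} (hy : y ∈ Y D) {u : List D} (hu : Edge u) :
    act sg y u ≠ y := by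
  intro e
  set j := u.getLast hu.2 with hj
  obtain ⟨M, hM⟩ : ∃ M, ∀ w, w <+: u → y w < M := by
    obtain ⟨M, hM⟩ := (u.inits.finite_toSet.image y).bddAbove
    exact ⟨M + 1, fun w hw => Nat.lt_succ_of_le (hM ⟨w, by simpa using hw, rfl⟩)⟩
  have key : ∀ L, ∀ v, v.length = L → Edge v → v.head? ≠ some j → y v < M := by
    intro L
    induction L using Nat.strong_induction_on with
    | _ L ih =>
      intro v hL hv hh
      have sub : ∀ w, w <+: v → w ≠ [] → w ≠ v → y w < M := fun w h1 h2 h3 => by
        refine ih _ ?_ w rfl ⟨hv.1.pre h1, h2⟩ ?_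
        · rw [← hL]
          exact lt_of_le_of_ne h1.length_le fun e => h3 (h1.eq_of_length e)
        · obtain ⟨t, rfl⟩ := h1
          cases w with
          | nil => exact absurd rfl h2
          | cons k w => simpa using hh
      have hr := red_append hu.1 hv.1 hu.2 hh
      have e1 : y v = y (u ++ v) := by rw [← act_apply y hr hv.2, e]
      obtain ⟨w, h1, h2⟩ := hy.2 v (u ++ v) hv ⟨hr, by simp [hv.2]⟩ (by simp [hu.2]) e1
      have hw := edge_of_xor hv.1 hr h1
      rcases h1 with h1 | h1
      · exact h2.trans (sub w h1.1 hw.2 (by rintro rfl; omega))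
      · rcases prefix_or_prefix_of_prefix h1.1 (prefix_append u v) with h3 | ⟨t, rfl⟩
        · exact h2.trans (hM w h3)
        · by_cases ht : t = []
          · exact h2.trans (hM _ (by simp [ht]))
          · rw [← act_apply y hw.1 ht, e] at h2
            exact h2.trans (sub t ((prefix_append_right_inj u).mp h1.1) ht (by rintro rfl; omega))
  obtain ⟨k, hk⟩ := exists_ne j
  obtain ⟨h1, h2, h3⟩ := alt_spec hk (2 ^ M)
  have := length_lt hy h1 (n := M) fun w hw hw' => key _ w rfl ⟨h1.pre hw, hw'⟩ (by
    obtain ⟨t, ht⟩ := hw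
    rw [← ht] at h3
    cases w with
    | nil => exact absurd rfl hw'
    | cons k w => simpa using h3)
  omega

end Pool.Agent.Lib.MP_88d9d7_lc
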