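import Pool.Agent.Lib.MP_88d9d7_lc.Game

/-!
Families of involutions with an equivariant map to the ruler labellings, and a Borel three-colouring
at the points where a given sequence of levels separates.
-/

set_option linter.unusedSectionVars false

namespace Pool.Agent.Lib.MP_88d9d7_lc

open List

variable {D : Type} [Fintype D] [LinearOrder D] {Z : Type}

/-- Every step of the walk satisfies `P`. -/
def Along (τ : D → Z → Z) (P : Z → D → Prop) : Z → List D → Prop
  | _, [] => True
  | z, j :: u => P z j ∧ Along τ P (τ j z) u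

theorem along_append {τ : D → Z → Z} {P : Z → D → Prop} {z : Z} {u v : List D} :
    Along τ P z (u ++ v) ↔ Along τ P z u ∧ Along τ P (act τ z u) v := by
  induction u generalizing z with
  | nil => simp [Along, act_nil]
  | cons j u ih => simp [Along, act_cons, ih, and_assoc]

theorem Along.mono {τ : D → Z → Z} {P Q : Z → D → Prop} (h : ∀ z j, P z j → Q z j) {z : Z}
    {u : List D} (hu : Along τ P z u) : Along τ Q z u := by
  induction u generalizing z with
  | nil => trivial
  | cons j u ih => exact ⟨h _ _ hu.1, ih hu.2⟩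

theorem measurable_act {α : Type*} [MeasurableSpace α] {τ : α → D → Z → Z} [MeasurableSpace Z]
    (hτ : ∀ j, Measurable fun p : α × Z => τ p.1 j p.2) (u : List D) :
    Measurable fun p : α × Z => act (τ p.1) p.2 u := by
  induction u with
  | nil => exact measurable_snd
  | cons j u ih => exact ih.comp (measurable_fst.prodMk (hτ j))

theorem measurable_act' {τ : D → Z → Z} [MeasurableSpace Z] (hτ : ∀ j, Measurable (τ j))
    (u : List D) : Measurable fun z => act τ z u := by
  induction u with
  | nil => exact measurable_id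
  | cons j u ih => exact ih.comp (hτ j)

theorem measurable_along {τ : D → Z → Z} [MeasurableSpace Z] (hτ : ∀ j, Measurable (τ j))
    {P : Z → D → Prop} (hP : ∀ j, Measurable fun z => P z j) (u : List D) :
    Measurable fun z => Along τ P z u := by
  induction u with
  | nil => exact measurable_const
  | cons j u ih => exact (hP j).and (ih.comp (hτ j))

/-- Involutions with an equivariant map to the ruler labellings. -/
structure Sys (D : Type) [DecidableEq D] (Z : Type) where
  τ : D → Z → Z
  φ : Z → List D → ℕ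
  inv : ∀ j z, τ j (τ j z) = z
  mem : ∀ z, φ z ∈ Y D
  eqv : ∀ j z, φ (τ j z) = sg j (φ z)

/-- The ruler labellings themselves. -/
noncomputable def sysY (D : Type) [DecidableEq D] : Sys D (Y D) where
  τ j y := ⟨sg j y, sg_mem j y.2⟩
  φ := Subtype.val
  inv j y := Subtype.ext (sg_sg j y.2)
  mem y := y.2
  eqv _ _ := rfl

/-- An edge of level at least `m` starts at distance less than `r`. -/
def Near (m r : ℕ) (y : List D → ℕ) : Prop := ∃ u : List D, u.length < r ∧ ∃ j, m ≤ act sg y u [j]

/-- The class of level `n` lies deep inside the class of level `m`. -/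
def Good (y : List D → ℕ) (n m : ℕ) : Prop :=
  ∀ u, Along sg (fun y j => y [j] < n) y u → ¬ Near m 4 (act sg y u)

theorem Near.step {m r : ℕ} {y : List D → ℕ} {j : D} (h : Near m r (sg j y)) : Near m (r + 1) y := by
  obtain ⟨u, h1, h2⟩ := h
  exact ⟨j :: u, by simpa using h1, h2⟩

theorem Near.mono {m m' r r' : ℕ} {y : List D → ℕ} (h : Near m r y) (hm : m' ≤ m) (hr : r ≤ r') :
    Near m' r' y := by
  obtain ⟨u, h1, j, h2⟩ := h
  exact ⟨u, by omega, j, by omega⟩

theorem lt_of_not_near {m : ℕ} {y : List D → ℕ} (h : ¬ Near m 1 y) (j : D) : y [j] < m := by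
  by_contra hcon
  exact h ⟨[], by simp, j, not_lt.mp hcon⟩

theorem Good.step {n m : ℕ} {y : List D → ℕ} (h : Good y n m) {j : D} (hj : y [j] < n) :
    Good (sg j y) n m := fun u hu => h (j :: u) ⟨hj, hu⟩

theorem measurable_sg (j : D) : Measurable (sg j) := (continuous_sg j).measurable

theorem measurable_near (m r : ℕ) : Measurable fun y : List D → ℕ => Near m r y :=
  .exists fun u => .and measurable_const <| .exists fun j =>
    meas2 measurable_const ((measurable_pi_apply [j]).comp (measurable_act' measurable_sg u)) (· ≤ ·)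

theorem measurable_good (n m : ℕ) : Measurable fun y : List D → ℕ => Good y n m :=
  .forall fun u => .imp (measurable_along measurable_sg
    (fun j => meas2 (measurable_pi_apply [j]) measurable_const (· < ·)) u)
    ((measurable_near m 4).comp (measurable_act' measurable_sg u)).not

namespace Sys

variable (S : Sys D Z)

theorem reduce {P : Z → D → Prop} {z : Z} {u : List D} (h : Along S.τ P z u) :
    ∃ v, Red v ∧ Along S.τ P z v ∧ act S.τ z v = act S.τ z u ∧ v.length % 2 = u.length % 2 := by
  induction u generalizing z with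
  | nil => exact ⟨[], red_nil, trivial, rfl, rfl⟩
  | cons j u ih =>
    obtain ⟨v, h1, h2, h3, h4⟩ := ih h.2
    by_cases hj : v.head? = some j
    · cases v with
      | nil => simp at hj
      | cons k v =>
        obtain rfl : k = j := by simpa using hj
        have h5 := h2.2
        rw [act_cons, S.inv] at h3
        rw [S.inv] at h5
        exact ⟨v, (red_cons.mp h1).2, h5, h3, by simp only [length_cons] at h4 ⊢; omega⟩
    · exact ⟨j :: v, red_cons.mpr ⟨hj, h1⟩, ⟨h.1, h2⟩, h3, by simp only [length_cons]; omega⟩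

theorem act_reverse (z : Z) (u : List D) : act S.τ (act S.τ z u) u.reverse = z := by
  induction u generalizing z with
  | nil => rfl
  | cons j u ih => rw [act_cons, reverse_cons, act_append, ih, act_cons, S.inv, act_nil]

theorem along_reverse {P : Z → D → Prop} (hP : ∀ z j, P z j → P (S.τ j z) j) {z : Z} {u : List D}
    (h : Along S.τ P z u) : Along S.τ P (act S.τ z u) u.reverse := by
  induction u generalizing z with
  | nil => trivial
  | cons j u ih =>
    rw [reverse_cons, along_append, act_cons, S.act_reverse]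
    exact ⟨ih h.2, hP _ _ h.1, trivial⟩

theorem phi_act (z : Z) (u : List D) : S.φ (act S.τ z u) = act sg (S.φ z) u := by
  induction u generalizing z with
  | nil => rfl
  | cons j u ih => rw [act_cons, act_cons, ih, S.eqv]

theorem along_phi {P : (List D → ℕ) → D → Prop} {z : Z} {u : List D} :
    Along S.τ (fun z j => P (S.φ z) j) z u ↔ Along sg P (S.φ z) u := by
  induction u generalizing z with
  | nil => rfl
  | cons j u ih => simp only [Along, ih, S.eqv]

theorem free [Nontrivial D] (z : Z) {u : List D} (hu : Edge u) : act S.τ z u ≠ z := fun e =>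
  act_ne (S.mem z) hu (by rw [← S.phi_act, e])

theorem along_true (z : Z) (u : List D) : Along S.τ (fun _ _ => True) z u := by
  induction u generalizing z with
  | nil => trivial
  | cons j u ih => exact ⟨trivial, ih _⟩

theorem parity [Nontrivial D] {z : Z} {u v : List D} (h : act S.τ z u = act S.τ z v) :
    u.length % 2 = v.length % 2 := by
  obtain ⟨w, h1, -, h3, h4⟩ := S.reduce (S.along_true z (u ++ v.reverse))
  rw [act_append, h, S.act_reverse] at h3
  have : w = [] := by
    by_contra hw
    exact S.free z ⟨h1, hw⟩ h3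
  rw [this, length_append, length_reverse, length_nil] at h4
  omega

theorem finite_class (z : Z) (n : ℕ) :
    {z' | ∃ u, Along S.τ (fun z j => S.φ z [j] < n) z u ∧ act S.τ z u = z'}.Finite := by
  refine ((List.finite_length_lt D (2 ^ n)).image (act S.τ z)).subset ?_
  rintro _ ⟨u, h, rfl⟩
  obtain ⟨v, h1, h2, h3, -⟩ := S.reduce h
  refine ⟨v, length_lt (S.mem z) h1 fun w hw hw' => ?_, h3⟩
  obtain ⟨t, rfl⟩ := hw
  obtain ⟨w, j, rfl⟩ : ∃ w' j, w = w' ++ [j] := ⟨_, _, (dropLast_concat_getLast hw').symm⟩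
  have : S.φ (act S.τ z w) [j] < n := (along_append.mp (along_append.mp h2).1).2.1
  rwa [S.phi_act, act_apply _ (h1.pre (prefix_append _ _)) (by simp)] at this

theorem exists_good (z : Z) (n : ℕ) : ∃ m0, ∀ m, m0 ≤ m → Good (S.φ z) n m := by
  obtain ⟨M, hM⟩ := ((((S.finite_class z n).prod (List.finite_length_lt D 4)).prod
    (Set.finite_univ (α := D))).image fun p => act sg (S.φ p.1.1) p.1.2 [p.2]).bddAbove
  refine ⟨M + 1, fun m hm u hu ⟨v, h1, j, h2⟩ => ?_⟩
  have := hM ⟨((act S.τ z u, v), j), ⟨⟨⟨u, S.along_phi.mpr hu, rfl⟩, h1⟩, trivial⟩, rfl⟩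
  simp only [S.phi_act] at this
  omega

/-- Points at odd distance from the least point of their component in `A`. -/
def Odds (g : Z → ℝ) (A : Set Z) : Set Z := {z | z ∈ A ∧ ∃ u : List D, u.length % 2 = 1 ∧
  Along S.τ (fun z j => z ∈ A ∧ S.τ j z ∈ A) z u ∧
    ∀ v, Along S.τ (fun z j => z ∈ A ∧ S.τ j z ∈ A) z v → g (act S.τ z u) ≤ g (act S.τ z v)}

theorem odds_indep [Nontrivial D] {g : Z → ℝ} (hg : Function.Injective g) {A : Set Z} {z : Z}
    {j : D} (h : z ∈ S.Odds g A) (h' : S.τ j z ∈ S.Odds g A) : False := by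
  obtain ⟨h1, u, h2, h3, h4⟩ := h
  obtain ⟨h5, v, h6, h7, h8⟩ := h'
  have e1 := h4 (j :: v) ⟨⟨h1, h5⟩, h7⟩
  have e2 := h8 (j :: u) ⟨⟨h5, by rwa [S.inv]⟩, by rwa [S.inv]⟩
  rw [act_cons, S.inv] at e2
  have := S.parity (hg (le_antisymm e1 e2))
  simp only [length_cons] at this
  omega

theorem odds_cover (g : Z → ℝ) {A : Set Z} {z : Z} {j : D} (h : z ∈ A) (h' : S.τ j z ∈ A) {n : ℕ}
    (hn : ∀ u, Along S.τ (fun z j => z ∈ A ∧ S.τ j z ∈ A) z u →
      Along S.τ (fun z j => S.φ z [j] < n) z u) : z ∈ S.Odds g A ∨ S.τ j z ∈ S.Odds g A := by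
  have hfin : {z' | ∃ u, Along S.τ (fun z j => z ∈ A ∧ S.τ j z ∈ A) z u ∧
      act S.τ z u = z'}.Finite := (S.finite_class z n).subset fun _ ⟨u, h1, h2⟩ => ⟨u, hn u h1, h2⟩
  obtain ⟨_, ⟨u, h1, rfl⟩, h2⟩ := Set.exists_min_image _ g hfin ⟨z, [], trivial, rfl⟩
  rcases Nat.mod_two_eq_zero_or_one u.length with h3 | h3
  · refine Or.inr ⟨h', j :: u, by simp only [length_cons]; omega,
      ⟨⟨h', by rwa [S.inv]⟩, by rwa [S.inv]⟩, fun v hv => ?_⟩
    rw [act_cons, S.inv]
    exact h2 _ ⟨j :: v, ⟨⟨h, h'⟩, hv⟩, rfl⟩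
  · exact Or.inl ⟨h, u, h3, h1, fun v hv => h2 _ ⟨v, hv, rfl⟩⟩

theorem measurable_odds [MeasurableSpace Z] (hτ : ∀ j, Measurable (S.τ j)) {g : Z → ℝ}
    (hg : Measurable g) {A : Set Z} (hA : MeasurableSet A) : MeasurableSet (S.Odds g A) := by
  have h1 : ∀ u, Measurable fun z => Along S.τ (fun z j => z ∈ A ∧ S.τ j z ∈ A) z u := fun u =>
    measurable_along hτ (fun j => hA.mem.and (hA.mem.comp (hτ j))) u
  exact measurableSet_setOfPred.mpr <| hA.mem.and <| .exists fun u => .and measurable_const <|
    (h1 u).and <| .forall fun v => (h1 v).imp (measurableSet_setOfPred.mp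
      (measurableSet_le (hg.comp (measurable_act' hτ u)) (hg.comp (measurable_act' hτ v))))

/-- The three-colouring. -/
theorem exists_col [Nontrivial D] [MeasurableSpace Z] [StandardBorelSpace Z]
    (hτ : ∀ j, Measurable (S.τ j)) (hφ : Measurable S.φ) {ν : Z → ℕ → ℕ} (hν : Measurable ν)
    (hm : ∀ z, Monotone (ν z)) (hi : ∀ j z, ν (S.τ j z) = ν z) :
    ∃ c : Z → Fin 3, Measurable c ∧
      ∀ z j, (∃ k, Good (S.φ z) (ν z k) (ν z (k + 1))) → c (S.τ j z) ≠ c z := by
  classical
  set g := MeasureTheory.embeddingReal Z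
  have hg := MeasureTheory.measurableEmbedding_embeddingReal Z
  have hN : ∀ k r, Measurable fun z => Near (ν z k) r (S.φ z) := fun k r => by
    have : (fun z => Near (ν z k) r (S.φ z)) = fun z => ∃ m, ν z k = m ∧ Near m r (S.φ z) := by simp
    rw [this]
    have h := (measurable_pi_apply k).comp hν
    exact .exists fun m => (meas2 h h fun a _ => a = m).and ((measurable_near m r).comp hφ)
  set A : Set Z := {z | ∃ k, Near (ν z k) 4 (S.φ z) ∧ ¬ Near (ν z k) 1 (S.φ z)} with hA
  set B : Set Z := {z | ¬ ∃ k, Near (ν z k) 3 (S.φ z) ∧ ¬ Near (ν z k) 2 (S.φ z)} with hB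
  have hAm := S.measurable_odds hτ hg.measurable (A := A)
    (measurableSet_setOfPred.mpr (.exists fun k => (hN k 4).and (hN k 1).not))
  have hBm := S.measurable_odds hτ hg.measurable (A := B)
    (measurableSet_setOfPred.mpr (Measurable.not (.exists fun k => (hN k 3).and (hN k 2).not)))
  have st : ∀ {m r z} j, Near m r (S.φ (S.τ j z)) → Near m (r + 1) (S.φ z) := fun j h => by
    rw [S.eqv] at h; exact h.step
  have edge : ∀ z j, z ∉ B → z ∈ A ∧ S.τ j z ∈ A := fun z j h => by
    obtain ⟨k, h1, h2⟩ := not_not.mp h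
    refine ⟨⟨k, h1.mono le_rfl (by omega), fun h => h2 (h.mono le_rfl (by omega))⟩, k, ?_, ?_⟩
    · rw [hi]; exact st j (by rwa [S.inv])
    · rw [hi]; exact fun h => h2 (st j h)
  refine ⟨fun z => if z ∈ S.Odds g A then 1 else if z ∈ S.Odds g B then 2 else 0,
    .ite hAm measurable_const (.ite hBm measurable_const measurable_const), ?_⟩
  rintro z j ⟨k, hk⟩
  have c1 : z ∈ A → S.τ j z ∈ A → z ∈ S.Odds g A ∨ S.τ j z ∈ S.Odds g A := fun h h' => by
    refine S.odds_cover g h h' (n := ν z k) fun u hu => ?_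
    clear h h'
    induction u generalizing z with
    | nil => trivial
    | cons i u ih =>
      obtain ⟨l, h1, h2⟩ := hu.1.1
      have h3 : S.φ z [i] < ν z k := by
        refine (lt_of_not_near h2 i).trans_le (hm z ?_)
        by_contra hcon
        exact hk [] trivial (h1.mono (hm z (by omega)) le_rfl)
      refine ⟨h3, ?_⟩
      have := ih (S.τ i z) (by rw [hi, S.eqv]; exact hk.step h3) hu.2
      rwa [hi] at this
  have c2 : z ∈ B → S.τ j z ∈ B → z ∈ S.Odds g B ∨ S.τ j z ∈ S.Odds g B := fun h h' => by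
    refine S.odds_cover g h h' (n := ν z (k + 1)) fun u hu => ?_
    have h0 : ¬ Near (ν z (k + 1)) 3 (S.φ z) := fun h => hk [] trivial (h.mono le_rfl (by omega))
    clear h h' hk c1
    induction u generalizing z with
    | nil => trivial
    | cons i u ih =>
      refine ⟨lt_of_not_near (fun h => h0 (h.mono le_rfl (by omega))) i, ?_⟩
      have := ih (S.τ i z) hu.2 fun h => hu.1.2 ⟨k + 1, h, by rw [hi]; exact fun h => h0 (st i h)⟩
      rwa [hi] at this
  have c3 : (z ∈ S.Odds g A ∨ S.τ j z ∈ S.Odds g A) ∨ (z ∈ S.Odds g B ∨ S.τ j z ∈ S.Odds g B) := by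
    by_cases h : z ∈ B
    · by_cases h' : S.τ j z ∈ B
      · exact Or.inr (c2 h h')
      · have := edge _ j h'
        rw [S.inv] at this
        exact Or.inl (c1 this.2 this.1)
    · exact Or.inl (c1 (edge z j h).1 (edge z j h).2)
  have i1 := S.odds_indep hg.injective (A := A) (z := z) (j := j)
  have i2 := S.odds_indep hg.injective (A := B) (z := z) (j := j)
  dsimp only
  split_ifs <;> first | decide | tauto

end Sys

end Pool.Agent.Lib.MP_88d9d7_lc
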