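import Pool.Agent.Lib.MP_88d9d7_lc.Codes

/-!
The set `classA Δ` is a projection of a coanalytic set.
-/

set_option synthInstance.maxSize 2048

namespace Pool.Agent.Lib.MP_88d9d7_lc

open Set

variable {Δ : ℕ}

theorem exists_nbrs {G : Set (X × X)} (hG : MeasurableSet G) (h : Regular Δ G) :
    ∃ f : X → Fin Δ → X, Measurable f ∧ (∀ x, Function.Injective (f x)) ∧
      ∀ x y, (x, y) ∈ G ↔ ∃ j, f x j = y := by
  classical
  obtain ⟨g, hg⟩ : ∃ g : X → ℝ, MeasurableEmbedding g :=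
    ⟨_, MeasureTheory.measurableEmbedding_embeddingReal X⟩
  have hfin : ∀ x, {y | (x, y) ∈ G}.Finite := fun x => finite_of_encard_eq_coe (h x)
  have hcard : ∀ x, ((hfin x).toFinset.image g).card = Δ := fun x => by
    rw [Finset.card_image_of_injective _ hg.injective]
    have := h x
    rw [(hfin x).encard_eq_coe_toFinset_card] at this
    exact_mod_cast this
  have ex : ∀ x j, ∃ y, (x, y) ∈ G ∧ g y = Finset.orderEmbOfFin _ (hcard x) j := fun x j => by
    obtain ⟨y, h1, h2⟩ := Finset.mem_image.mp (Finset.orderEmbOfFin_mem _ (hcard x) j)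
    exact ⟨y, by simpa using h1, h2⟩
  choose f hf hf' using ex
  set S : Set (X × (Fin Δ → X)) := {p | (∀ i j, i < j → g (p.2 i) < g (p.2 j)) ∧
    ∀ j, (p.1, p.2 j) ∈ G} with hS
  have hSm : MeasurableSet S := measurableSet_setOfPred.mpr <| .and
    (.forall fun i => .forall fun j => .imp measurable_const (measurableSet_setOfPred.mp
      (measurableSet_lt (hg.measurable.comp (by fun_prop)) (hg.measurable.comp (by fun_prop)))))
    (.forall fun j => hG.mem.comp (by fun_prop))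
  have hS' : ∀ p, p ∈ S ↔ p.2 = f p.1 := fun p => by
    refine ⟨fun hp => funext fun j => hg.injective ?_, fun hp => ⟨fun i j hij => ?_, fun j => ?_⟩⟩
    · rw [hf']
      exact congrFun (Finset.orderEmbOfFin_unique (hcard p.1) (f := fun j => g (p.2 j))
        (fun j => Finset.mem_image_of_mem _ (by simpa using hp.2 j)) hp.1) j
    · rw [hp, hf', hf']; exact (Finset.orderEmbOfFin _ _).strictMono hij
    · rw [hp]; exact hf _ _
  refine ⟨f, fun T hT => ?_, fun x i j e => ?_, fun x y => ⟨fun hy => ?_, ?_⟩⟩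
  · have := (hSm.inter (measurable_snd hT)).image_of_measurable_injOn measurable_fst
      fun p hp q hq e => Prod.ext e (by rw [(hS' p).mp hp.1, (hS' q).mp hq.1, e])
    refine (congrArg MeasurableSet ?_).mp this
    ext x
    simp [hS']
  · exact (Finset.orderEmbOfFin _ (hcard x)).injective (by rw [← hf', e, hf'])
  · have : g y ∈ range (Finset.orderEmbOfFin _ (hcard x)) := by
      rw [Finset.range_orderEmbOfFin]
      exact Finset.mem_image_of_mem _ (by simpa using hy)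
    obtain ⟨j, hj⟩ := this
    exact ⟨j, hg.injective (by rw [hf', hj])⟩
  · rintro ⟨j, rfl⟩
    exact hf x j

/-- Indices of the Borel sets witnessing membership in `classA Δ`. -/
inductive Ix (Δ : ℕ) : Type
  | g : Ix Δ
  | e (n : ℕ) : Ix Δ
  | b (j : Fin Δ) (m : ℕ) : Ix Δ
  | k (j : Fin Δ) : Ix Δ

instance : Countable (Ix Δ) := by
  have : Function.Surjective fun x : Option (ℕ ⊕ (Fin Δ × ℕ) ⊕ Fin Δ) => match x with
      | none => (Ix.g : Ix Δ)
      | some (.inl n) => .e n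
      | some (.inr (.inl p)) => .b p.1 p.2
      | some (.inr (.inr j)) => .k j := by
    rintro (_ | n | ⟨j, m⟩ | j)
    exacts [⟨none, rfl⟩, ⟨some (.inl n), rfl⟩, ⟨some (.inr (.inl (j, m))), rfl⟩,
      ⟨some (.inr (.inr j)), rfl⟩]
  exact this.countable

/-- `y` is the `j`-th neighbour of `x`. -/
def Is (V : Bool → Ix Δ → X → X → Prop) (j : Fin Δ) (x y : X) : Prop :=
  ∀ m, ∃ t, y m = t ∧ V t (.b j m) x x

/-- `y` is not the `j`-th neighbour of `x`. -/
def IsNot (V : Bool → Ix Δ → X → X → Prop) (j : Fin Δ) (x y : X) : Prop :=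
  ∃ m t, y m = !t ∧ V t (.b j m) x x

/-- The ways in which a witness can fail. -/
def Bad (V : Bool → Ix Δ → X → X → Prop) (x : ℕ → X) (z : List (Fin Δ) → X) : Prop :=
  (V true .g (x 0) (x 1) ∧ V false .g (x 1) (x 0)) ∨ V true .g (x 0) (x 0) ∨
  (V true .g (x 0) (x 1) ∧ ∀ j, IsNot V j (x 0) (x 1)) ∨
  (∃ j, Is V j (x 0) (x 1) ∧ V false .g (x 0) (x 1)) ∨
  (∃ j k, j ≠ k ∧ Is V j (x 0) (x 1) ∧ Is V k (x 0) (x 1)) ∨
  (∃ n, 3 ≤ n ∧ (∀ i j, i < n → j < n → x i = x j → i = j) ∧ x n = x 0 ∧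
    ∀ i, i < n → V true .g (x i) (x (i + 1))) ∨
  (∃ n, V false (.e n) (x 0) (x 0)) ∨
  (∃ n, V true (.e n) (x 0) (x 1) ∧ V false (.e n) (x 1) (x 0)) ∨
  (∃ n, V true (.e n) (x 0) (x 1) ∧ V true (.e n) (x 1) (x 2) ∧ V false (.e n) (x 0) (x 2)) ∨
  (∃ n, V true (.e n) (x 0) (x 1) ∧ V false (.e (n + 1)) (x 0) (x 1)) ∨
  (∃ n, (∀ i j, x i = x j → i = j) ∧ ∀ i, V true (.e n) (x 0) (x i)) ∨
  (V true .g (x 0) (x 1) ∧ ∀ n, V false (.e n) (x 0) (x 1)) ∨
  (∃ n, V true (.e n) (z []) (x 0) ∧ (∀ j u, Is V j (z u) (z (j :: u))) ∧ ∀ u, z u ≠ x 0) ∨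
  (∀ j, V false (.k j) (x 0) (x 0)) ∨
  ∃ j, V true .g (x 0) (x 1) ∧ V true (.k j) (x 0) (x 0) ∧ V true (.k j) (x 1) (x 1)

theorem an_bad : An fun c : Ix Δ → ℕ → ℕ =>
    ∃ x z, Bad (fun t i a b => Val t (c i) (a, b)) x z := by
  refine An.ex (An.ex ?_)
  have v : ∀ t i (a b : ((Ix Δ → ℕ → ℕ) × (ℕ → X)) × (List (Fin Δ) → X) → X), Measurable a →
      Measurable b → An fun p => Val t (p.1.1 i) (a p, b p) := fun t i a b ha hb =>
    an_val t (by fun_prop) ha hb
  have x : ∀ i, Measurable fun p : ((Ix Δ → ℕ → ℕ) × (ℕ → X)) × (List (Fin Δ) → X) => p.1.2 i :=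
    fun i => by fun_prop
  have z : ∀ u, Measurable fun p : ((Ix Δ → ℕ → ℕ) × (ℕ → X)) × (List (Fin Δ) → X) => p.2 u :=
    fun u => by fun_prop
  have w : ∀ t i k l, An fun p : ((Ix Δ → ℕ → ℕ) × (ℕ → X)) × (List (Fin Δ) → X) =>
      Val t (p.1.1 i) (p.1.2 k, p.1.2 l) := fun t i k l => v t i _ _ (x k) (x l)
  have e : ∀ {a b : ((Ix Δ → ℕ → ℕ) × (ℕ → X)) × (List (Fin Δ) → X) → X}, Measurable a →
      Measurable b → Measurable fun p => a p = b p := fun ha hb =>
    measurableSet_setOfPred.mp (measurableSet_eq_fun ha hb)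
  have bit : ∀ {a : ((Ix Δ → ℕ → ℕ) × (ℕ → X)) × (List (Fin Δ) → X) → X}, Measurable a →
      ∀ m t, An fun p => a p m = t := fun ha m t => An.of_meas
    (measurableSet_setOfPred.mp (measurableSet_eq_fun (by fun_prop) measurable_const))
  have is : ∀ j {a b : ((Ix Δ → ℕ → ℕ) × (ℕ → X)) × (List (Fin Δ) → X) → X}, Measurable a →
      Measurable b → An fun p => Is (fun t i a b => Val t (p.1.1 i) (a, b)) j (a p) (b p) :=
    fun j a b ha hb => .allc fun m => .exc fun t => (bit hb m t).and (v t _ _ _ ha ha)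
  have c : ∀ q : Prop, An fun _ : ((Ix Δ → ℕ → ℕ) × (ℕ → X)) × (List (Fin Δ) → X) => q :=
    fun q => An.of_meas measurable_const
  exact .or (.and (w ..) (w ..)) <| .or (w ..) <|
    .or (.and (w ..) (.allc fun j => .exc fun m => .exc fun t => (bit (x 1) m _).and (w ..))) <|
    .or (.exc fun j => .and (is j (x 0) (x 1)) (w ..)) <|
    .or (.exc fun j => .exc fun k => .and (c _) (.and (is j (x 0) (x 1)) (is k (x 0) (x 1)))) <|
    .or (.exc fun n => .and (c _) <| .and (.of_meas <| .forall fun i => .forall fun j =>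
      .imp measurable_const <| .imp measurable_const <| .imp (e (x i) (x j)) measurable_const) <|
      .and (.of_meas (e (x n) (x 0))) (.allc fun i => .imp measurable_const (w ..))) <|
    .or (.exc fun n => w ..) <| .or (.exc fun n => .and (w ..) (w ..)) <|
    .or (.exc fun n => .and (w ..) (.and (w ..) (w ..))) <| .or (.exc fun n => .and (w ..) (w ..)) <|
    .or (.exc fun n => .and (.of_meas <| .forall fun i => .forall fun j =>
      .imp (e (x i) (x j)) measurable_const) (.allc fun i => w ..)) <|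
    .or (.and (w ..) (.allc fun n => w ..)) <|
    .or (.exc fun n => .and (v _ _ _ _ (z _) (x 0)) <| .and
      (.allc fun j => .allc fun u => is j (z _) (z _))
      (.of_meas (.forall fun u => (e (z u) (x 0)).not))) <|
    .or (.allc fun j => w ..) (.exc fun j => .and (w ..) (.and (w ..) (w ..)))

/-- Membership and non-membership. -/
def mem (S : Ix Δ → Set (X × X)) (t : Bool) (i : Ix Δ) (a b : X) : Prop :=
  if t then (a, b) ∈ S i else (a, b) ∉ S i

theorem is_mem {S : Ix Δ → Set (X × X)} {f : X → Fin Δ → X}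
    (hf : ∀ x j m, (x, x) ∈ S (.b j m) ↔ f x j m = true) (j : Fin Δ) (x y : X) :
    (Is (mem S) j x y ↔ f x j = y) ∧ (IsNot (mem S) j x y ↔ f x j ≠ y) := by
  rw [Ne, funext_iff, not_forall]
  refine ⟨forall_congr' fun m => ?_, exists_congr fun m => ?_⟩ <;>
    cases h : y m <;> simp [mem, hf]

/-- Three points. -/
def tri (a b c : X) : ℕ → X
  | 0 => a
  | 1 => b
  | _ => c

theorem of_not_bad {S : Ix Δ → Set (X × X)} (hS : ∀ i, MeasurableSet (S i))
    (h : ¬ ∃ x z, Bad (mem S) x z) : IsGraph (S .g) ∧ Regular Δ (S .g) ∧ Acyclic (S .g) ∧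
      Hyperfinite (S .g) ∧ BorelColorable Δ (S .g) := by
  classical
  let f : X → Fin Δ → X := fun x j m => decide ((x, x) ∈ S (.b j m))
  have hf := is_mem (S := S) (f := f) fun x j m => by simp [f]
  simp only [Bad, (hf _ _ _).1, (hf _ _ _).2, mem, if_true, Bool.false_eq_true, if_false, not_exists,
    not_or, not_and, not_not, not_forall] at h
  have t := fun a b c => h (tri a b c) default
  simp only [tri] at t
  have hE : ∀ n, Equivalence fun x y => (x, y) ∈ S (.e n) := fun n =>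
    ⟨fun a => (t a a a).2.2.2.2.2.2.1 n, fun {a b} => (t a b a).2.2.2.2.2.2.2.1 n,
      fun {a b c} => (t a b c).2.2.2.2.2.2.2.2.1 n⟩
  have hM : Monotone fun n => S (.e n) := monotone_nat_of_le_succ fun n q =>
    (t q.1 q.2 q.1).2.2.2.2.2.2.2.2.2.1 n
  have hG : ∀ x j, (x, f x j) ∈ S .g := fun x j => (t x _ x).2.2.2.1 j rfl
  refine ⟨⟨fun a b => (t a b a).1, fun a => (t a a a).2.1⟩, fun a => ?_, ?_,
    ⟨fun n => S (.e n), fun n => ⟨hS _, hE n, hM (Nat.le_succ n), fun a => ?_⟩, fun a b => ⟨?_, ?_⟩⟩,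
    ?_⟩
  · have h1 : {y | (a, y) ∈ S .g} = range (f a) :=
      ext fun b => ⟨(t a b a).2.2.1, by rintro ⟨j, rfl⟩; exact hG a j⟩
    have h2 : Function.Injective (f a) := fun j k e => by
      by_contra hne
      exact (t a (f a k) a).2.2.2.2.1 j k hne e rfl
    rw [h1, ← image_univ, h2.encard_image, encard_univ]
    simp
  · rintro ⟨n, x, h1, h2, h3, h4⟩
    obtain ⟨i, h5, h6⟩ := (h x default).2.2.2.2.2.1 n h1 (fun i j hi hj e => h2 hi hj e) h3
    exact h6 (h4 i h5)
  · by_contra hinf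
    let y := Set.Infinite.natEmbedding _ hinf
    obtain ⟨i, hi⟩ := (h (fun i => y i) default).2.2.2.2.2.2.2.2.2.2.1 n
      fun i j e => y.injective (Subtype.ext e)
    exact hi ((hE n).trans ((hE n).symm (y 0).2) (y i).2)
  · intro hab
    induction hab with
    | refl => exact ⟨0, (hE 0).refl a⟩
    | @tail b c _ hbc ih =>
      obtain ⟨n, hn⟩ := ih
      obtain ⟨m, hm⟩ := (t b c b).2.2.2.2.2.2.2.2.2.2.2.1 hbc
      exact ⟨max n m, (hE _).trans (hM (le_max_left n m) hn) (hM (le_max_right n m) hm)⟩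
  · rintro ⟨n, hn⟩
    let z : List (Fin Δ) → X := fun u => List.rec a (fun j _ r => f r j) u
    obtain ⟨u, hu⟩ := (h (fun _ => b) z).2.2.2.2.2.2.2.2.2.2.2.2.1 n hn fun _ _ => rfl
    rw [← hu]
    clear hu
    induction u with
    | nil => exact .refl
    | cons j u ih => exact ih.tail (hG _ j)
  · have h1 : ∀ a, ∃ n, ∃ hn : n < Δ, (a, a) ∈ S (.k ⟨n, hn⟩) := fun a => by
      obtain ⟨j, hj⟩ := (t a a a).2.2.2.2.2.2.2.2.2.2.2.2.2.1
      exact ⟨j.1, j.2, hj⟩
    have h2 : Measurable fun a => Nat.find (h1 a) := measurable_find h1 fun n =>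
      measurableSet_setOfPred.mpr (.exists fun hn => (hS _).mem.comp (by fun_prop))
    refine ⟨fun a => ⟨Nat.find (h1 a), (Nat.find_spec (h1 a)).1⟩,
      measurable_to_countable' fun j => ?_, fun a b hab e => ?_⟩
    · refine (congrArg MeasurableSet ?_).mp (h2 (measurableSet_singleton j.1))
      ext a
      simp [Fin.ext_iff]
    · refine (t a b a).2.2.2.2.2.2.2.2.2.2.2.2.2.2 _ hab (Nat.find_spec (h1 a)).2 ?_
      have := (Nat.find_spec (h1 b)).2
      dsimp only at e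
      rwa [← e] at this

theorem exists_not_bad {G : Set (X × X)} (hG : MeasurableSet G) (h1 : IsGraph G) (h2 : Regular Δ G)
    (h3 : Acyclic G) (h4 : Hyperfinite G) (h5 : BorelColorable Δ G) :
    ∃ S : Ix Δ → Set (X × X), (∀ i, MeasurableSet (S i)) ∧ S .g = G ∧
      ¬ ∃ x z, Bad (mem S) x z := by
  obtain ⟨f, hf1, hf2, hf3⟩ := exists_nbrs hG h2
  obtain ⟨E, hE, hE'⟩ := h4
  obtain ⟨c, hc, hc'⟩ := h5
  let S : Ix Δ → Set (X × X) := fun i => match i with
    | .g => G
    | .e n => E n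
    | .b j m => {q | f q.1 j m = true}
    | .k j => {q | c q.1 = j}
  refine ⟨S, ?_, rfl, ?_⟩
  · rintro (_ | n | ⟨j, m⟩ | j)
    · exact hG
    · exact (hE n).1
    · exact measurableSet_eq_fun (by fun_prop) measurable_const
    · exact measurableSet_eq_fun (by fun_prop) measurable_const
  have hf := is_mem (S := S) (f := f) fun x j m => Iff.rfl
  rintro ⟨x, z, h⟩
  simp only [Bad, (hf _ _ _).1, (hf _ _ _).2, mem, if_true, Bool.false_eq_true, if_false, S,
    mem_ofPred_eq] at h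
  rcases h with h | h | h | ⟨j, h⟩ | ⟨j, k, h⟩ | ⟨n, h⟩ | ⟨n, h⟩ | ⟨n, h⟩ | ⟨n, h⟩ | ⟨n, h⟩ |
    ⟨n, h⟩ | h | ⟨n, h⟩ | h | ⟨j, h⟩
  · exact h.2 (h1.1 _ _ h.1)
  · exact h1.2 _ h
  · obtain ⟨j, hj⟩ := (hf3 _ _).mp h.1
    exact h.2 j hj
  · exact h.2 ((hf3 _ _).mpr ⟨j, h.1⟩)
  · exact h.1 (hf2 _ (h.2.1.trans h.2.2.symm))
  · exact h3 ⟨n, x, h.1, fun i hi j hj => h.2.1 i j hi hj, h.2.2⟩
  · exact h ((hE n).2.1.refl _)
  · exact h.2 ((hE n).2.1.symm h.1)
  · exact h.2.2 ((hE n).2.1.trans h.1 h.2.1)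
  · exact h.2 ((hE n).2.2.1 h.1)
  · exact infinite_of_injective_forall_mem h.1 h.2 ((hE n).2.2.2 _)
  · obtain ⟨n, hn⟩ := (hE' _ _).mp (.single h.1)
    exact h.2 n hn
  · have : ∀ y, Relation.ReflTransGen (fun a b => (a, b) ∈ G) (z []) y → ∃ u, z u = y := by
      intro y hy
      induction hy with
      | refl => exact ⟨[], rfl⟩
      | tail _ hbc ih =>
        obtain ⟨u, rfl⟩ := ih
        obtain ⟨j, rfl⟩ := (hf3 _ _).mp hbc
        exact ⟨j :: u, (h.2.1 j u).symm⟩
    obtain ⟨u, hu⟩ := this _ ((hE' _ _).mpr ⟨n, h.1⟩)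
    exact h.2.2 u hu
  · exact h _ rfl
  · exact hc' _ _ h.1 (h.2.1.trans h.2.2.symm)

theorem exists_decode (ι : Type) [Countable ι] : ∃ d : (ℕ → ℕ) → ι → ℕ → ℕ,
    Continuous d ∧ Function.Surjective d := by
  obtain ⟨f, hf⟩ := exists_injective_nat (ι × ℕ)
  refine ⟨fun w i k => w (f (i, k)), by fun_prop, fun c =>
    ⟨Function.extend f (fun p => c p.1 p.2) 0, funext₂ fun i k => hf.extend_apply ..⟩⟩

theorem val_eq_mem {c : Ix Δ → ℕ → ℕ} {S : Ix Δ → Set (X × X)} (h : ∀ i, Codes (c i) (S i)) :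
    (fun t i a b => Val t (c i) (a, b)) = mem S := by
  funext t i a b
  cases t
  · exact propext (val_false (h i))
  · exact propext (val_true (h i))

theorem sigma12_classA (Δ : ℕ) : Sigma12 (classA Δ) := by
  classical
  obtain ⟨d, hd, hd'⟩ := exists_decode (Ix Δ)
  refine ⟨{p | ¬ (d p.2 .g ≠ p.1 ∨ (∃ i, ¬ IsCode (d p.2 i)) ∨
    ∃ x z, Bad (fun t i a b => Val t (d p.2 i) (a, b)) x z)}, ?_, ?_⟩
  · have hm : Measurable fun p : (ℕ → ℕ) × (ℕ → ℕ) => d p.2 := hd.measurable.comp measurable_snd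
    have : An fun p : (ℕ → ℕ) × (ℕ → ℕ) => d p.2 .g ≠ p.1 ∨ (∃ i, ¬ IsCode (d p.2 i)) ∨
        ∃ x z, Bad (fun t i a b => Val t (d p.2 i) (a, b)) x z :=
      .or (.of_meas (measurableSet_setOfPred.mp
        (measurableSet_eq_fun ((measurable_pi_apply _).comp hm) measurable_fst)).not) <|
      .or (.exc fun i => an_not_isCode.comp ((measurable_pi_apply i).comp hm)) (an_bad.comp hm)
    refine (congrArg MeasureTheory.AnalyticSet ?_).mp this
    ext p
    simp only [mem_compl_iff, mem_ofPred_eq, not_not]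
  · ext c
    constructor
    · rintro ⟨G, h0, h1, h2, h3, h4, h5⟩
      obtain ⟨S, hS, rfl, h⟩ := exists_not_bad h0.measurableSet h1 h2 h3 h4 h5
      choose k hk using fun i => exists_code (hS i)
      have hk' : ∀ i, Codes (Function.update k .g c i) (S i) := fun i => by
        by_cases hi : i = .g
        · rwa [hi, Function.update_self]
        · rw [Function.update_of_ne hi]; exact hk i
      obtain ⟨w, hw⟩ := hd' (Function.update k .g c)
      refine ⟨(c, w), ?_, rfl⟩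
      simp only [mem_ofPred_eq, hw, val_eq_mem hk']
      rintro (h' | ⟨i, h'⟩ | h')
      · exact h' (Function.update_self ..)
      · exact h' ⟨_, hk' i⟩
      · exact h h'
    · rintro ⟨⟨c, w⟩, h, rfl⟩
      simp only [mem_ofPred_eq, not_or, not_not, not_exists (p := fun i => ¬ IsCode _)] at h
      obtain ⟨rfl, h1, h2⟩ := h
      choose S hS using h1
      rw [val_eq_mem hS] at h2
      exact ⟨S .g, hS _, of_not_bad (fun i => (hS i).measurableSet) h2⟩

end Pool.Agent.Lib.MP_88d9d7_lc
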